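import Pool.Agent.W120.NO.Cell
import Pool.Agent.Helper658.Hull

set_option autoImplicit false

/-! NO-8 (helper120): the sum of the areas of the Delaunay triangles -/

open Real MeasureTheory Metric Set Filter Topology

namespace Pool.Agent.W120.NO
open Pool.Agent.W259.Nona Pool.Agent.Helper658

theorem three {s : Set E2} (hs : Convex ℝ s) {p q r : E2} (hp : p ∈ s) (hq : q ∈ s) (hr : r ∈ s)
    {a b c : ℝ} (ha : 0 ≤ a) (hb : 0 ≤ b) (hc : 0 ≤ c) (h : a + b + c = 1) :
    a • p + b • q + c • r ∈ s := by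
  have := hs.sum_mem (t := Finset.univ) (w := ![a, b, c]) (z := ![p, q, r])
    (by intro i _; fin_cases i <;> simpa) (by simp [Fin.sum_univ_three, h])
    (by intro i _; fin_cases i <;> simpa)
  simpa [Fin.sum_univ_three] using this

/-- the standard triangle has area at least 1/2 -/
theorem vol_stdTri_ge :
    ENNReal.ofReal (1/2) ≤ volume {x : E2 | 0 ≤ x 0 ∧ 0 ≤ x 1 ∧ x 0 + x 1 ≤ 1} := by
  set D : Set E2 := {x | 0 ≤ x 0 ∧ 0 ≤ x 1 ∧ x 0 + x 1 ≤ 1} with hD
  set w : E2 := !₂[1, 1] with hw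
  have hw0 : w 0 = 1 := by simp [hw]
  have hw1 : w 1 = 1 := by simp [hw]
  have hc0 : Continuous (fun x : E2 => x 0) := by fun_prop
  have hc1 : Continuous (fun x : E2 => x 1) := by fun_prop
  have hDclosed : IsClosed D := by
    rw [hD]
    exact (isClosed_le continuous_const hc0).inter ((isClosed_le continuous_const hc1).inter
      (isClosed_le (hc0.add hc1) continuous_const))
  have hvol' : volume ((fun x => w - x) ⁻¹' D) = volume D :=
    (Measure.measurePreserving_sub_left volume w).measure_preimage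
      hDclosed.measurableSet.nullMeasurableSet
  have hsub : (@WithLp.ofLp 2 (Fin 2 → ℝ)) ⁻¹' (Icc (0 : Fin 2 → ℝ) 1) ⊆
      D ∪ (fun x => w - x) ⁻¹' D := by
    intro x hx
    rw [mem_preimage, mem_Icc, Pi.le_def, Pi.le_def] at hx
    have h0 : 0 ≤ x 0 := hx.1 0
    have h1 : 0 ≤ x 1 := hx.1 1
    have h2 : x 0 ≤ 1 := hx.2 0
    have h3 : x 1 ≤ 1 := hx.2 1
    rcases le_total (x 0 + x 1) 1 with h | h
    · exact Or.inl ⟨h0, h1, h⟩
    · right
      show 0 ≤ (w - x) 0 ∧ 0 ≤ (w - x) 1 ∧ (w - x) 0 + (w - x) 1 ≤ 1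
      simp only [PiLp.sub_apply, hw0, hw1]
      exact ⟨by linarith, by linarith, by linarith⟩
  have h1 : volume ((@WithLp.ofLp 2 (Fin 2 → ℝ)) ⁻¹' (Icc (0 : Fin 2 → ℝ) 1)) = 1 := by
    rw [(PiLp.volume_preserving_ofLp (Fin 2)).measure_preimage
      measurableSet_Icc.nullMeasurableSet, Real.volume_Icc_pi]
    simp
  have h2 : (1 : ENNReal) ≤ volume D + volume D := by
    calc (1 : ENNReal) = _ := h1.symm
      _ ≤ volume (D ∪ (fun x => w - x) ⁻¹' D) := measure_mono hsub
      _ ≤ volume D + volume ((fun x => w - x) ⁻¹' D) := measure_union_le _ _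
      _ = volume D + volume D := by rw [hvol']
  rw [← two_mul] at h2
  have h3 : ENNReal.ofReal (1 / 2) = 1 / 2 := by
    rw [ENNReal.ofReal_div_of_pos (by norm_num)]
    simp
  rw [h3, ENNReal.div_le_iff_le_mul (by simp) (by simp), mul_comm]
  exact h2

theorem vol_tri_ge (p q r : E2) :
    ENNReal.ofReal (area3 p q r) ≤ volume (convexHull ℝ {p, q, r}) := by
  set D : Set E2 := {x | 0 ≤ x 0 ∧ 0 ≤ x 1 ∧ x 0 + x 1 ≤ 1} with hD
  have hvol : ENNReal.ofReal (1/2) ≤ volume D := vol_stdTri_ge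
  set L := linUV (q - p) (r - p) with hL
  have hsub : (fun x => -p + x) ⁻¹' (L '' D) ⊆ convexHull ℝ {p, q, r} := by
    rintro x ⟨y, ⟨hy0, hy1, hy2⟩, hyx⟩
    have hx : x = (1 - y 0 - y 1) • p + y 0 • q + y 1 • r := by
      have h1 : x = p + L y := by rw [hyx]; exact (add_neg_cancel_left p x).symm
      rw [h1, hL]
      show p + (y 0 • (q - p) + y 1 • (r - p)) = _
      simp only [sub_smul, smul_sub, one_smul]
      abel
    rw [hx]
    have hp : p ∈ convexHull ℝ ({p, q, r} : Set E2) := subset_convexHull _ _ (by simp)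
    have hq : q ∈ convexHull ℝ ({p, q, r} : Set E2) := subset_convexHull _ _ (by simp)
    have hr : r ∈ convexHull ℝ ({p, q, r} : Set E2) := subset_convexHull _ _ (by simp)
    exact three (convex_convexHull ℝ _) hp hq hr (by linarith) hy0 hy1 (by ring)
  refine le_trans ?_ (measure_mono hsub)
  rw [measure_preimage_add, Measure.addHaar_image_linearMap, hL, det_linUV]
  refine le_trans ?_ (mul_le_mul_right hvol _)
  rw [← ENNReal.ofReal_mul (abs_nonneg _)]
  apply ENNReal.ofReal_le_ofReal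
  unfold area3
  have h1 := le_abs_self ((q - p) 0 * (r - p) 1 - (r - p) 0 * (q - p) 1)
  simp only [PiLp.sub_apply] at h1 ⊢
  linarith

/-- hulls of two sets of sites on different empty circles meet in a null set -/
theorem null_inter (F : Finset E2) (o o' : E2) (r r' : ℝ) (hr : 0 ≤ r) (hr' : 0 ≤ r')
    (hoo : o ≠ o') (A A' : Set E2) (hA : ∀ p ∈ A, p ∈ F ∧ dist p o = r)
    (hA' : ∀ p ∈ A', p ∈ F ∧ dist p o' = r') (he : ∀ p ∈ F, r ≤ dist p o)
    (he' : ∀ p ∈ F, r' ≤ dist p o') :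
    volume (convexHull ℝ A ∩ convexHull ℝ A') = 0 := by
  rcases eq_empty_or_nonempty (convexHull ℝ A ∩ convexHull ℝ A') with h | ⟨z, hz, hz'⟩
  · rw [h, measure_empty]
  have key : ∀ p : E2, (dist p o ^ 2 - r ^ 2) - (dist p o' ^ 2 - r' ^ 2)
      = 2 * (o' 0 - o 0) * p 0 + 2 * (o' 1 - o 1) * p 1
        - (o' 0 ^ 2 + o' 1 ^ 2 - o 0 ^ 2 - o 1 ^ 2 + r ^ 2 - r' ^ 2) := by
    intro p; rw [dsq, dsq]; ring
  have h1 : ∀ p ∈ A, (2 * (o' 0 - o 0)) * p 0 + (2 * (o' 1 - o 1)) * p 1
      ≤ (o' 0 ^ 2 + o' 1 ^ 2 - o 0 ^ 2 - o 1 ^ 2 + r ^ 2 - r' ^ 2) := by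
    intro p hp
    have h2 := key p
    have h3 := he' p (hA p hp).1
    rw [(hA p hp).2] at h2
    nlinarith
  have h1' : ∀ p ∈ A', (-(2 * (o' 0 - o 0))) * p 0 + (-(2 * (o' 1 - o 1))) * p 1
      ≤ -(o' 0 ^ 2 + o' 1 ^ 2 - o 0 ^ 2 - o 1 ^ 2 + r ^ 2 - r' ^ 2) := by
    intro p hp
    have h2 := key p
    have h3 := he p (hA' p hp).1
    rw [(hA' p hp).2] at h2
    nlinarith
  set v : E2 := !₂[o' 1 - o 1, -(o' 0 - o 0)] with hv
  have hv0 : v 0 = o' 1 - o 1 := by simp [hv]
  have hv1 : v 1 = -(o' 0 - o 0) := by simp [hv]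
  have hvne : v ≠ 0 := by
    intro h
    apply hoo
    have h2 : v 0 = 0 := by rw [h]; simp
    have h3 : v 1 = 0 := by rw [h]; simp
    rw [hv0] at h2
    rw [hv1] at h3
    ext i
    fin_cases i
    · simp only [Fin.zero_eta]; linarith
    · simp only [Fin.mk_one]; linarith
  refine measure_mono_null ?_ (vol_line v z hvne)
  rintro x ⟨hx, hx'⟩
  have e1 := hull_le hx _ _ _ h1
  have e2 := hull_le hx' _ _ _ h1'
  have e3 := hull_le hz _ _ _ h1
  have e4 := hull_le hz' _ _ _ h1'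
  show crs v (x - z) = 0
  unfold crs
  rw [hv0, hv1]
  simp only [PiLp.sub_apply]
  linarith

theorem area3_ne {a b c : E2} (h : 0 < area3 a b c) : a ≠ b ∧ a ≠ c ∧ b ≠ c := by
  unfold area3 at h
  refine ⟨?_, ?_, ?_⟩
  · rintro rfl; simp at h
  · rintro rfl; simp at h
  · rintro rfl
    have : (b 0 - a 0) * (b 1 - a 1) - (b 1 - a 1) * (b 0 - a 0) = 0 := by ring
    rw [this] at h
    simp at h

theorem area : AreaStmt := by
  classical
  intro F R T B hG hT hinj hB
  have hfin : ∀ t : E2 × E2 × E2, ({t.1, t.2.1, t.2.2} : Set E2).Finite := fun t => by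
    exact (Set.toFinite _)
  have hdisj : Set.Pairwise (T : Set (E2 × E2 × E2)) (Function.onFun (AEDisjoint volume)
      fun t => convexHull ℝ ({t.1, t.2.1, t.2.2} : Set E2)) := by
    intro t ht t' ht' hne
    obtain ⟨ha, hb, hc, hpos, o, r, hr, hao, hbo, hco, hemp⟩ := hT t ht
    obtain ⟨ha', hb', hc', hpos', o', r', hr', hao', hbo', hco', hemp'⟩ := hT t' ht'
    have hr0 : 0 ≤ r := by rw [← hao]; exact dist_nonneg
    have hr0' : 0 ≤ r' := by rw [← hao']; exact dist_nonneg
    show volume (convexHull ℝ ({t.1, t.2.1, t.2.2} : Set E2) ∩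
      convexHull ℝ ({t'.1, t'.2.1, t'.2.2} : Set E2)) = 0
    by_cases hoo : o = o'
    · exfalso
      apply hne
      apply hinj t ht t' ht'
      subst hoo
      have hrr : r = r' := by
        apply le_antisymm
        · rw [← hao']; exact hemp _ ha'
        · rw [← hao]; exact hemp' _ ha
      subst hrr
      have h3 : (F.filter (fun p => dist p o = r)).card ≤ 3 := by
        have := hG o r
        convert this
      have k1 : ∀ a b c : E2, a ∈ F → b ∈ F → c ∈ F → dist a o = r → dist b o = r →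
          dist c o = r → 0 < area3 a b c →
          ({a, b, c} : Finset E2) = F.filter (fun p => dist p o = r) := by
        intro a b c ha hb hc hao hbo hco hpos
        obtain ⟨hab, hac, hbc⟩ := area3_ne hpos
        apply Finset.eq_of_subset_of_card_le
        · intro p hp
          simp only [Finset.mem_insert, Finset.mem_singleton] at hp
          rw [Finset.mem_filter]
          rcases hp with rfl | rfl | rfl
          · exact ⟨ha, hao⟩
          · exact ⟨hb, hbo⟩
          · exact ⟨hc, hco⟩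
        · rw [Finset.card_insert_of_notMem (by simp [hab, hac]),
            Finset.card_insert_of_notMem (by simp [hbc]), Finset.card_singleton]
          omega
      have e1 := k1 _ _ _ ha hb hc hao hbo hco hpos
      have e2 := k1 _ _ _ ha' hb' hc' hao' hbo' hco' hpos'
      have e3 := congrArg (fun s : Finset E2 => (s : Set E2)) (e1.trans e2.symm)
      simpa using e3
    · refine null_inter F o o' r r' hr0 hr0' hoo _ _ ?_ ?_ hemp hemp'
      · rintro p (rfl | rfl | rfl)
        · exact ⟨ha, hao⟩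
        · exact ⟨hb, hbo⟩
        · exact ⟨hc, hco⟩
      · rintro p (rfl | rfl | rfl)
        · exact ⟨ha', hao'⟩
        · exact ⟨hb', hbo'⟩
        · exact ⟨hc', hco'⟩
  have hmeas : ∀ t ∈ T, NullMeasurableSet (convexHull ℝ ({t.1, t.2.1, t.2.2} : Set E2)) volume :=
    fun t _ => (((hfin t).isCompact_convexHull (𝕜 := ℝ)).isClosed.measurableSet).nullMeasurableSet
  rw [ENNReal.ofReal_sum_of_nonneg (fun t ht => (hT t ht).2.2.2.1.le)]
  calc ∑ t ∈ T, ENNReal.ofReal (area3 t.1 t.2.1 t.2.2)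
      ≤ ∑ t ∈ T, volume (convexHull ℝ ({t.1, t.2.1, t.2.2} : Set E2)) :=
        Finset.sum_le_sum fun t _ => vol_tri_ge _ _ _
    _ = volume (⋃ t ∈ T, convexHull ℝ ({t.1, t.2.1, t.2.2} : Set E2)) :=
        (measure_biUnion_finset₀ hdisj hmeas).symm
    _ ≤ volume B := measure_mono (iUnion₂_subset hB)

end Pool.Agent.W120.NO
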