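import Pool.Agent.W259.Nona.Stmts
import Pool.Agent.Helper658.Del

set_option autoImplicit false

/-! NO-6 and NO-7 (helper120): Delaunay cells near a point -/

open Real MeasureTheory Metric Set Filter Topology

namespace Pool.Agent.W120.NO
open Pool.Agent.W259.Nona

theorem dsq (p c : E2) : dist p c ^ 2 = (p 0 - c 0) ^ 2 + (p 1 - c 1) ^ 2 := by
  rw [EuclideanSpace.dist_eq, Real.sq_sqrt (by positivity)]
  simp [Fin.sum_univ_two, Real.dist_eq, sq_abs]

/-- half planes -/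
theorem hull_le {S : Set E2} {x : E2} (hx : x ∈ convexHull ℝ S) (α β γ : ℝ)
    (h : ∀ p ∈ S, α * p 0 + β * p 1 ≤ γ) : α * x 0 + β * x 1 ≤ γ := by
  have hc : Convex ℝ {p : E2 | α * p 0 + β * p 1 ≤ γ} := by
    intro p hp q hq u v hu hv huv
    simp only [mem_ofPred_eq] at hp hq ⊢
    simp only [PiLp.add_apply, PiLp.smul_apply, smul_eq_mul]
    have h1 := mul_le_mul_of_nonneg_left hp hu
    have h2 := mul_le_mul_of_nonneg_left hq hv
    have h3 : γ = u * γ + v * γ := by rw [← add_mul, huv, one_mul]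
    rw [h3]
    linarith
  exact convexHull_min h hc hx

/-- an empty circle whose sites have both `m` and points `m + δ e` in their hull -/
theorem near_cell (F : Finset E2) (m e : E2) (he : e ≠ 0)
    (hcov : ∀ x ∈ closedBall m 3, ∃ p ∈ F, dist p x ≤ 2.13) :
    ∃ (c : E2) (ρ : ℝ), ρ ≤ 2.13 ∧ (∀ p ∈ F, ρ ≤ dist p c) ∧
      m ∈ convexHull ℝ {p : E2 | p ∈ F ∧ dist p c = ρ} ∧
      ∃ δ : ℝ, 0 < δ ∧ m + δ • e ∈ convexHull ℝ {p : E2 | p ∈ F ∧ dist p c = ρ} := by
  classical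
  have hF : F.Nonempty := by
    obtain ⟨p, hp, _⟩ := hcov m (mem_closedBall_self (by norm_num))
    exact ⟨p, hp⟩
  -- eventually outside `F`
  have h1 : ∀ᶠ δ : ℝ in 𝓝[>] 0, m + δ • e ∉ F := by
    have h2 : ∀ᶠ δ : ℝ in 𝓝[>] 0, ∀ p ∈ F, m + δ • e ≠ p := by
      refine (Finset.eventually_all F).mpr fun p hp => ?_
      by_cases h : ∃ δ0 : ℝ, 0 < δ0 ∧ m + δ0 • e = p
      · obtain ⟨δ0, hδ0, h0⟩ := h
        have h3 : ∀ᶠ δ : ℝ in 𝓝[>] 0, δ < δ0 := nhdsWithin_le_nhds (gt_mem_nhds hδ0)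
        filter_upwards [h3] with δ hδ h4
        have h5 : (δ0 - δ) • e = 0 := by
          rw [sub_smul, sub_eq_zero]
          exact add_left_cancel (h0.trans h4.symm)
        rcases smul_eq_zero.1 h5 with h6 | h6
        · linarith
        · exact he h6
      · push Not at h
        filter_upwards [self_mem_nhdsWithin] with δ hδ
        exact h δ hδ
    filter_upwards [h2] with δ hδ hmem
    exact hδ _ hmem rfl
  have h2 : ∀ᶠ δ : ℝ in 𝓝[>] 0, m + δ • e ∈ closedBall m (1 / 2) := by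
    have hcont : Continuous (fun δ : ℝ => m + δ • e) := by fun_prop
    have h3 : Tendsto (fun δ : ℝ => m + δ • e) (𝓝[>] 0) (𝓝 m) := by
      have := hcont.tendsto 0
      simp only [zero_smul, add_zero] at this
      exact this.mono_left nhdsWithin_le_nhds
    exact h3.eventually (closedBall_mem_nhds m (by norm_num))
  have h3 : ∀ᶠ δ : ℝ in 𝓝[>] 0, ∃ A ∈ F.powerset, ∃ (c : E2) (ρ : ℝ), ρ ≤ 2.13 ∧
      (∀ p ∈ F, ρ ≤ dist p c) ∧ (A : Set E2) = {p : E2 | p ∈ F ∧ dist p c = ρ} ∧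
      m + δ • e ∈ convexHull ℝ (A : Set E2) := by
    filter_upwards [h1, h2] with δ hδ1 hδ2
    obtain ⟨c, ρ, hρ, hge, hx⟩ := Pool.Agent.Helper658.exists_delaunay F hF (m + δ • e) hδ1 2.13
      (by norm_num) (fun y hy => hcov y (by
        rw [mem_closedBall] at hy hδ2 ⊢
        have := dist_triangle y (m + δ • e) m
        linarith))
    have hA : ((F.filter fun p => dist p c = ρ : Finset E2) : Set E2)
        = {p : E2 | p ∈ F ∧ dist p c = ρ} := by
      ext p; simp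
    exact ⟨F.filter fun p => dist p c = ρ, Finset.mem_powerset.2 (Finset.filter_subset _ _), c, ρ,
      hρ, hge, hA, by rw [hA]; exact hx⟩
  have h4 : ∃ A ∈ F.powerset, ∃ᶠ δ : ℝ in 𝓝[>] 0, ∃ (c : E2) (ρ : ℝ), ρ ≤ 2.13 ∧
      (∀ p ∈ F, ρ ≤ dist p c) ∧ (A : Set E2) = {p : E2 | p ∈ F ∧ dist p c = ρ} ∧
      m + δ • e ∈ convexHull ℝ (A : Set E2) := by
    by_contra hno
    push Not at hno
    have h5 : ∀ᶠ δ : ℝ in 𝓝[>] 0, ∀ A ∈ F.powerset, ¬ ∃ (c : E2) (ρ : ℝ), ρ ≤ 2.13 ∧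
        (∀ p ∈ F, ρ ≤ dist p c) ∧ (A : Set E2) = {p : E2 | p ∈ F ∧ dist p c = ρ} ∧
        m + δ • e ∈ convexHull ℝ (A : Set E2) :=
      (Finset.eventually_all _).mpr fun A hA => (hno A hA).mono
        fun δ h ⟨c, ρ, h1, h2, h3, h4⟩ => h c ρ h1 h2 h3 h4
    obtain ⟨δ, ⟨A, hA, h6⟩, h7⟩ := (h3.and h5).exists
    exact h7 A hA h6
  obtain ⟨A, hA, hfr⟩ := h4
  have hm : m ∈ convexHull ℝ (A : Set E2) := by
    have hcl : IsClosed (convexHull ℝ (A : Set E2)) :=
      ((A.finite_toSet).isCompact_convexHull (𝕜 := ℝ)).isClosed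
    have hcont : Continuous (fun δ : ℝ => m + δ • e) := by fun_prop
    have h5 : Tendsto (fun δ : ℝ => m + δ • e) (𝓝[>] 0) (𝓝 m) := by
      have := hcont.tendsto 0
      simp only [zero_smul, add_zero] at this
      exact this.mono_left nhdsWithin_le_nhds
    rw [← hcl.closure_eq]
    refine mem_closure_of_frequently_of_tendsto ?_ h5
    exact hfr.mono fun δ ⟨_, _, _, _, _, h⟩ => h
  obtain ⟨δ, ⟨c, ρ, hρ, hge, hAeq, hx⟩, hδ⟩ := (hfr.and_eventually self_mem_nhdsWithin).exists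
  refine ⟨c, ρ, hρ, hge, ?_, δ, hδ, ?_⟩
  · rw [← hAeq]; exact hm
  · rw [← hAeq]; exact hx

theorem adj : AdjStmt := by
  intro F a b c hG hT hcov
  obtain ⟨ha, hb, hc, hpos, o, r, hr, hao, hbo, hco, hemp⟩ := hT
  set m : E2 := midpoint ℝ a b with hm
  have hm0 : m 0 = (a 0 + b 0) / 2 := by
    simp [hm, midpoint_eq_smul_add]; ring
  have hm1 : m 1 = (a 1 + b 1) / 2 := by
    simp [hm, midpoint_eq_smul_add]; ring
  set e : E2 := !₂[b 1 - a 1, -(b 0 - a 0)] with he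
  have he0 : e 0 = b 1 - a 1 := by simp [he]
  have he1 : e 1 = -(b 0 - a 0) := by simp [he]
  have hab : 0 < (b 0 - a 0) ^ 2 + (b 1 - a 1) ^ 2 := by
    by_contra h
    have h1 : (b 0 - a 0) ^ 2 = 0 := by nlinarith [sq_nonneg (b 0 - a 0), sq_nonneg (b 1 - a 1)]
    have h2 : (b 1 - a 1) ^ 2 = 0 := by nlinarith [sq_nonneg (b 0 - a 0), sq_nonneg (b 1 - a 1)]
    rw [sq_eq_zero_iff] at h1 h2
    unfold area3 at hpos
    rw [h1, h2] at hpos
    simp at hpos
  have hene : e ≠ 0 := by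
    intro h
    rw [← he0, ← neg_neg (b 0 - a 0), ← he1, h] at hab
    simp at hab
  have hdm : dist m a ≤ 2.13 := by
    have h1 : dist m a = dist a b / 2 := by
      rw [dist_comm, hm, dist_left_midpoint (𝕜 := ℝ)]
      norm_num
      ring
    have h2 := dist_triangle a o b
    rw [dist_comm o b, hao, hbo] at h2
    rw [h1]
    linarith
  obtain ⟨c', ρ, hρ, hge, hmA, δ, hδ, hxA⟩ := near_cell F m e hene (fun x hx => hcov x (by
    rw [mem_closedBall] at hx ⊢
    have := dist_triangle x m a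
    linarith))
  have hr0 : 0 ≤ r := by rw [← hao]; exact dist_nonneg
  have hρ0 : 0 ≤ ρ := by
    by_contra h
    have h2 : ({p : E2 | p ∈ F ∧ dist p c' = ρ} : Set E2) = ∅ := by
      ext p
      simp only [mem_ofPred_eq, mem_empty_iff_false, iff_false, not_and]
      intro _ h3
      have := dist_nonneg (x := p) (y := c')
      linarith
    rw [h2] at hmA
    simp at hmA
  -- the difference of the powers
  have key : ∀ p : E2, (dist p o ^ 2 - r ^ 2) - (dist p c' ^ 2 - ρ ^ 2)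
      = 2 * (c' 0 - o 0) * p 0 + 2 * (c' 1 - o 1) * p 1
        - (c' 0 ^ 2 + c' 1 ^ 2 - o 0 ^ 2 - o 1 ^ 2 + r ^ 2 - ρ ^ 2) := by
    intro p; rw [dsq, dsq]; ring
  have hLA : ∀ p ∈ {p : E2 | p ∈ F ∧ dist p c' = ρ},
      (-(2 * (c' 0 - o 0))) * p 0 + (-(2 * (c' 1 - o 1))) * p 1
        ≤ -(c' 0 ^ 2 + c' 1 ^ 2 - o 0 ^ 2 - o 1 ^ 2 + r ^ 2 - ρ ^ 2) := by
    rintro p ⟨hpF, hpc⟩
    have h1 := key p
    have h2 := hemp p hpF
    rw [hpc] at h1
    nlinarith
  have hLm := hull_le hmA _ _ _ hLA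
  have hLa := key a
  have hLb := key b
  rw [hao] at hLa
  rw [hbo] at hLb
  have h1 := hge a ha
  have h2 := hge b hb
  have h1' : ρ ^ 2 ≤ dist a c' ^ 2 := by nlinarith
  have h2' : ρ ^ 2 ≤ dist b c' ^ 2 := by nlinarith
  rw [hm0, hm1] at hLm
  have h3 : dist a c' ^ 2 = ρ ^ 2 := by nlinarith
  have h4 : dist b c' ^ 2 = ρ ^ 2 := by nlinarith
  have h5 : dist a c' = ρ := by
    rw [← abs_of_nonneg (dist_nonneg (x := a) (y := c')), ← abs_of_nonneg hρ0]
    exact (sq_eq_sq_iff_abs_eq_abs _ _).1 h3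
  have h6 : dist b c' = ρ := by
    rw [← abs_of_nonneg (dist_nonneg (x := b) (y := c')), ← abs_of_nonneg hρ0]
    exact (sq_eq_sq_iff_abs_eq_abs _ _).1 h4
  obtain ⟨d, hd, hdneg⟩ : ∃ d ∈ {p : E2 | p ∈ F ∧ dist p c' = ρ}, area3 a b d < 0 := by
    by_contra hno
    push Not at hno
    have h7 := hull_le hxA (b 1 - a 1) (-(b 0 - a 0))
      ((b 1 - a 1) * a 0 - (b 0 - a 0) * a 1) (fun p hp => by
        have := hno p hp
        unfold area3 at this
        nlinarith)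
    simp only [PiLp.add_apply, PiLp.smul_apply, smul_eq_mul, hm0, hm1, he0, he1] at h7
    nlinarith [mul_pos hδ hab]
  refine ⟨d, hb, ha, hd.1, ?_, c', ρ, hρ, h6, h5, hd.2, hge⟩
  have : area3 b a d = - area3 a b d := by unfold area3; ring
  rw [this]
  linarith

theorem uniq : UniqStmt := by
  classical
  intro F R a b c d hG hT hT'
  obtain ⟨ha, hb, hc, hpos, o, r, hr, hao, hbo, hco, hemp⟩ := hT
  obtain ⟨_, _, hd, hpos', o', r', hr', hao', hbo', hdo', hemp'⟩ := hT'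
  have hr0 : 0 ≤ r := by rw [← hao]; exact dist_nonneg
  have hr0' : 0 ≤ r' := by rw [← hao']; exact dist_nonneg
  have key : ∀ p : E2, (dist p o ^ 2 - r ^ 2) - (dist p o' ^ 2 - r' ^ 2)
      = 2 * (o' 0 - o 0) * p 0 + 2 * (o' 1 - o 1) * p 1
        - (o' 0 ^ 2 + o' 1 ^ 2 - o 0 ^ 2 - o 1 ^ 2 + r ^ 2 - r' ^ 2) := by
    intro p; rw [dsq, dsq]; ring
  have hLa := key a
  have hLb := key b
  have hLc := key c
  have hLd := key d
  rw [hao, hao'] at hLa
  rw [hbo, hbo'] at hLb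
  rw [hco] at hLc
  rw [hdo'] at hLd
  have h1 := hemp' c hc
  have h2 := hemp d hd
  have h1' : r' ^ 2 ≤ dist c o' ^ 2 := by nlinarith
  have h2' : r ^ 2 ≤ dist d o ^ 2 := by nlinarith
  set x := o' 0 - o 0 with hx
  set y := o' 1 - o 1 with hy
  have e1 : (b 0 - a 0) * x + (b 1 - a 1) * y = 0 := by nlinarith
  have e2 : (c 0 - a 0) * x + (c 1 - a 1) * y ≤ 0 := by nlinarith
  have e3 : 0 ≤ (d 0 - a 0) * x + (d 1 - a 1) * y := by nlinarith
  have hab : 0 < (b 0 - a 0) ^ 2 + (b 1 - a 1) ^ 2 := by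
    by_contra h
    have h1 : (b 0 - a 0) ^ 2 = 0 := by nlinarith [sq_nonneg (b 0 - a 0), sq_nonneg (b 1 - a 1)]
    have h2 : (b 1 - a 1) ^ 2 = 0 := by nlinarith [sq_nonneg (b 0 - a 0), sq_nonneg (b 1 - a 1)]
    rw [sq_eq_zero_iff] at h1 h2
    unfold area3 at hpos
    rw [h1, h2] at hpos
    simp at hpos
  set w := (b 0 - a 0) * y - (b 1 - a 1) * x with hw
  have f1 : ((b 0 - a 0) ^ 2 + (b 1 - a 1) ^ 2) * ((c 0 - a 0) * x + (c 1 - a 1) * y)
      = ((b 0 - a 0) * (c 0 - a 0) + (b 1 - a 1) * (c 1 - a 1))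
        * ((b 0 - a 0) * x + (b 1 - a 1) * y) + 2 * area3 a b c * w := by
    unfold area3; rw [hw]; ring
  have f2 : ((b 0 - a 0) ^ 2 + (b 1 - a 1) ^ 2) * ((d 0 - a 0) * x + (d 1 - a 1) * y)
      = ((b 0 - a 0) * (d 0 - a 0) + (b 1 - a 1) * (d 1 - a 1))
        * ((b 0 - a 0) * x + (b 1 - a 1) * y) + 2 * area3 a b d * w := by
    unfold area3; rw [hw]; ring
  rw [e1, mul_zero, zero_add] at f1 f2
  have g1 : 2 * area3 a b c * w ≤ 0 := by
    rw [← f1]; exact mul_nonpos_of_nonneg_of_nonpos hab.le e2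
  have g2 : 0 ≤ 2 * area3 a b d * w := by
    rw [← f2]; exact mul_nonneg hab.le e3
  have g3 : w ≤ 0 := by
    by_contra h
    push Not at h
    have : 0 < 2 * area3 a b c * w := by positivity
    linarith
  have g4 : 0 ≤ w := by
    by_contra h
    push Not at h
    have : 2 * area3 a b d * w < 0 := mul_neg_of_pos_of_neg (by linarith) h
    linarith
  have g5 : w = 0 := le_antisymm g3 g4
  have g6 : ((b 0 - a 0) ^ 2 + (b 1 - a 1) ^ 2) * x = 0 := by
    have : ((b 0 - a 0) ^ 2 + (b 1 - a 1) ^ 2) * x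
        = (b 0 - a 0) * ((b 0 - a 0) * x + (b 1 - a 1) * y) - (b 1 - a 1) * w := by
      rw [hw]; ring
    rw [this, e1, g5]; ring
  have g7 : ((b 0 - a 0) ^ 2 + (b 1 - a 1) ^ 2) * y = 0 := by
    have : ((b 0 - a 0) ^ 2 + (b 1 - a 1) ^ 2) * y
        = (b 1 - a 1) * ((b 0 - a 0) * x + (b 1 - a 1) * y) + (b 0 - a 0) * w := by
      rw [hw]; ring
    rw [this, e1, g5]; ring
  have hx0 : x = 0 := by
    rcases mul_eq_zero.1 g6 with h | h
    · linarith
    · exact h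
  have hy0 : y = 0 := by
    rcases mul_eq_zero.1 g7 with h | h
    · linarith
    · exact h
  have hoo : o = o' := by
    ext i
    fin_cases i
    · simp only [Fin.zero_eta]; linarith
    · simp only [Fin.mk_one]; linarith
  have hrr : r = r' := by rw [← hao, ← hao', hoo]
  rw [← hoo, ← hrr] at hdo'
  by_contra hcd
  have hab' : a ≠ b := by
    rintro rfl
    simp at hab
  have hac : a ≠ c := by
    rintro rfl
    unfold area3 at hpos
    simp at hpos
  have hbc : b ≠ c := by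
    rintro rfl
    unfold area3 at hpos
    have : (b 0 - a 0) * (b 1 - a 1) - (b 1 - a 1) * (b 0 - a 0) = 0 := by ring
    rw [this] at hpos
    simp at hpos
  have had : a ≠ d := by
    rintro rfl
    unfold area3 at hpos'
    simp at hpos'
  have hbd : b ≠ d := by
    rintro rfl
    unfold area3 at hpos'
    have : (b 0 - a 0) * (b 1 - a 1) - (b 1 - a 1) * (b 0 - a 0) = 0 := by ring
    rw [this] at hpos'
    simp at hpos'
  have h3 := hG o r
  have hsub : ({a, b, c, d} : Finset E2) ⊆ F.filter (fun p => dist p o = r) := by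
    intro p hp
    simp only [Finset.mem_insert, Finset.mem_singleton] at hp
    rw [Finset.mem_filter]
    rcases hp with rfl | rfl | rfl | rfl
    · exact ⟨ha, hao⟩
    · exact ⟨hb, hbo⟩
    · exact ⟨hc, hco⟩
    · exact ⟨hd, hdo'⟩
  have h4 : ({a, b, c, d} : Finset E2).card = 4 := by
    rw [Finset.card_insert_of_notMem (by simp [hab', hac, had]),
      Finset.card_insert_of_notMem (by simp [hbc, hbd]),
      Finset.card_insert_of_notMem (by simp [hcd]), Finset.card_singleton]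
  have h5 := Finset.card_le_card hsub
  rw [h4] at h5
  have h6 : (F.filter (fun p => dist p o = r)).card ≤ 3 := by convert h3
  omega

end Pool.Agent.W120.NO
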