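import Pool.Agent.W259.Nona.Stmts

set_option autoImplicit false

/-! NO-1 (helper120): the corner inequality -/

open Real

namespace Pool.Agent.W120.NO
open Pool.Agent.W259.Nona

theorem c3P : 4 * cos (2 * π / 9) ^ 3 - 3 * cos (2 * π / 9) = -(1 / 2) := by
  have h := cos_three_mul (2 * π / 9)
  rw [show 3 * (2 * π / 9) = π - π / 3 by ring, cos_pi_sub, cos_pi_div_three] at h
  linarith

theorem s3P : sin (π / 3) = sin (2 * π / 9) * (4 * cos (2 * π / 9) ^ 2 - 1) := by
  have h := sin_three_mul (2 * π / 9)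
  rw [show 3 * (2 * π / 9) = π - π / 3 by ring, sin_pi_sub] at h
  have h2 := sin_sq_add_cos_sq (2 * π / 9)
  rw [h]
  linear_combination (-(4 * sin (2 * π / 9))) * h2

theorem T2 : sin (π / 3) ^ 2 = 3 / 4 := by
  have h2 := sin_sq_add_cos_sq (π / 3)
  rw [cos_pi_div_three] at h2
  linarith

/-- the excess -/
theorem wed_id (x1 x2 α S C m s : ℝ) (hα : sin α ≠ 0) (hC : C ≠ 0) (hs : s = 2 * S * C) :
    wed (cos x1 / C) (cos x2 / C) α - (m * (S / C) + sin (2 * x2) / (4 * C ^ 2)
      - sin (2 * x1) / (4 * C ^ 2)) =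
    (cos (x1 + x2) * (1 - cos (α - (x2 - x1))) + cos (x2 - x1) - cos α - m * s * sin α)
      / (2 * C ^ 2 * sin α) := by
  have h1 := sin_sq_add_cos_sq x1
  have h2 := sin_sq_add_cos_sq x2
  unfold wed
  rw [cos_sub α (x2 - x1), cos_add x1 x2, cos_sub x2 x1, sin_sub x2 x1, sin_two_mul, sin_two_mul, hs]
  generalize sin α = a at *
  generalize cos α = b at *
  generalize sin x1 = a1 at *
  generalize cos x1 = b1 at *
  generalize sin x2 = a2 at *
  generalize cos x2 = b2 at *
  rw [eq_div_iff (by positivity)]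
  have e1 : (2 * (b1 / C) * (b2 / C) - ((b1 / C) ^ 2 + (b2 / C) ^ 2) * b) / (2 * a)
      * (2 * C ^ 2 * a) = 2 * b1 * b2 - (b1 ^ 2 + b2 ^ 2) * b := by
    field_simp
  have e2 : (m * (S / C) + 2 * a2 * b2 / (4 * C ^ 2) - 2 * a1 * b1 / (4 * C ^ 2))
      * (2 * C ^ 2 * a) = 2 * m * S * C * a + (a2 * b2 - a1 * b1) * a := by
    field_simp
    ring
  rw [sub_mul, e1, e2]
  linear_combination (-b * a2 ^ 2 + a * a2 * b2) * h1 + (-b * (1 - b1 ^ 2) - a * a1 * b1) * h2

theorem corner : CornerStmt := by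
  intro t α hα hα2
  have hpi := pi_pos
  have hpi2 : 3.14 < π := pi_gt_d2
  have hpi3 : π < 3.15 := pi_lt_d2
  have hsin : 0 < sin α := sin_pos_of_pos_of_lt_pi hα (by linarith)
  have hC := c9_pos
  obtain ⟨k1, hk1⟩ := exists_off t
  obtain ⟨k2, hk2⟩ := exists_off (t + α)
  have hx1 := off_abs_le t
  have hx2 := off_abs_le (t + α)
  set x1 := off t with hx1d
  set x2 := off (t + α) with hx2d
  obtain ⟨m, hm⟩ : ∃ m : ℤ, k2 = k1 + m := ⟨k2 - k1, by ring⟩
  have hαm : α = 2 * π / 9 * m + (x2 - x1) := by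
    rw [hm] at hk2
    push_cast at hk2
    linarith
  rw [abs_le] at hx1 hx2
  have hm0 : 0 ≤ m := by
    by_contra h
    push Not at h
    have h1 : (m : ℝ) ≤ -1 := by exact_mod_cast (by omega : m ≤ -1)
    nlinarith
  have hm3 : m ≤ 3 := by
    by_contra h
    push Not at h
    have h1 : (4 : ℝ) ≤ m := by exact_mod_cast (by omega : 4 ≤ m)
    nlinarith
  -- bound for `x1 + x2`
  have he : |x1 + x2| + |x2 - x1| ≤ 2 * π / 9 := by
    rcases abs_cases (x1 + x2) with ⟨h1, _⟩ | ⟨h1, _⟩ <;>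
    rcases abs_cases (x2 - x1) with ⟨h2, _⟩ | ⟨h2, _⟩ <;> rw [h1, h2] <;> linarith
  have hle : ∀ y : ℝ, y ≤ π → |x1 + x2| ≤ y → cos y ≤ cos (x1 + x2) := by
    intro y hy1 hy2
    rw [← cos_abs (x1 + x2)]
    exact cos_le_cos_of_nonneg_of_le_pi (abs_nonneg _) hy1 hy2
  -- reduction
  have hid := wed_id x1 x2 α (sin (π / 9)) (cos (π / 9)) m (sin (2 * π / 9)) hsin.ne' hC.ne'
    s29_eq
  have hpsi : 9 * tan (π / 9) / (2 * π) * α + psi (t + α) - psi t =
      m * (sin (π / 9) / cos (π / 9)) + sin (2 * x2) / (4 * cos (π / 9) ^ 2)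
        - sin (2 * x1) / (4 * cos (π / 9) ^ 2) := by
    unfold psi
    rw [← hx1d, ← hx2d, ← t9_eq]
    conv_lhs => rw [hαm]
    field_simp
    ring
  have hw : wed (supp t) (supp (t + α)) α = wed (cos x1 / cos (π / 9)) (cos x2 / cos (π / 9)) α := rfl
  rw [hpsi, hw]
  have hmd : α - (x2 - x1) = 2 * π / 9 * m := by rw [hαm]; ring
  have hmd' : x2 - x1 = α - 2 * π / 9 * m := by rw [hαm]; ring
  rw [hmd, hmd'] at hid
  set W := cos (x1 + x2) * (1 - cos (2 * π / 9 * m)) + cos (α - 2 * π / 9 * m) - cos α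
    - m * sin (2 * π / 9) * sin α with hW
  have hgoal : GG α * (2 * cos (π / 9) ^ 2 * sin α) ≤ W → m * (sin (π / 9) / cos (π / 9))
      + sin (2 * x2) / (4 * cos (π / 9) ^ 2) - sin (2 * x1) / (4 * cos (π / 9) ^ 2) + GG α
      ≤ wed (cos x1 / cos (π / 9)) (cos x2 / cos (π / 9)) α := by
    intro h
    have h1 : GG α ≤ W / (2 * cos (π / 9) ^ 2 * sin α) := by
      rw [le_div_iff₀ (by positivity)]
      exact h
    linarith
  apply hgoal
  -- the values of `GG`
  have hC2 : 2 * cos (π / 9) ^ 2 = 1 + cos (2 * π / 9) := by rw [c29_eq]; ring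
  have hS2 : 2 * sin (π / 9) ^ 2 = 1 - cos (2 * π / 9) := by rw [c29_eq, s9_sq]; ring
  have hsc := sin_sq_add_cos_sq (2 * π / 9)
  have hab := sin_sq_add_cos_sq α
  have hc3 := c3P
  have hs3 := s3P
  have hT2 := T2
  have hPpos : 0 < sin (2 * π / 9) := by have := s29_gt; linarith
  have hP1 : 0 < 1 - cos (2 * π / 9) := by have := c29_lt; linarith
  have hG1 : α ≤ 2 * π / 9 → GG α * (2 * cos (π / 9) ^ 2 * sin α) = 0 := by
    intro h
    unfold GG
    rw [if_pos h, zero_mul]
  have hG2 : 2 * π / 9 < α → α ≤ 4 * π / 9 → GG α * (2 * cos (π / 9) ^ 2 * sin α)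
      = 2 * (1 - cos (2 * π / 9)) * sin (2 * π / 9) * sin (α - 2 * π / 9) := by
    intro h h'
    unfold GG
    rw [if_neg (not_le.2 h), if_pos h', t9_eq, ← hS2]
    have := hsin.ne'
    field_simp
  have hG3 : 4 * π / 9 < α → GG α * (2 * cos (π / 9) ^ 2 * sin α)
      = 4 * sin (2 * π / 9) ^ 2 * sin (π / 3) * sin (α - π / 3)
        - 2 * (1 - cos (2 * π / 9)) * sin (2 * π / 9) * sin α := by
    intro h
    unfold GG
    rw [if_neg (not_le.2 (by linarith)), if_neg (not_le.2 h), t9_eq, ← hS2]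
    have := hsin.ne'
    field_simp
    ring
  have hcases : m = 0 ∨ m = 1 ∨ m = 2 ∨ m = 3 := by omega
  rcases hcases with rfl | rfl | rfl | rfl
  · -- m = 0
    have h1 : α ≤ 2 * π / 9 := by
      rw [hαm]
      have := le_abs_self (x2 - x1)
      have := abs_nonneg (x1 + x2)
      push_cast
      linarith
    rw [hG1 h1, hW]
    simp
  · -- m = 1
    have e1 : W = (1 - cos (2 * π / 9)) * (cos (x1 + x2) - cos α) := by
      rw [hW]
      push_cast
      rw [mul_one, cos_sub]
      ring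
    rcases le_or_gt α (2 * π / 9) with h | h
    · rw [hG1 h, e1]
      refine mul_nonneg hP1.le (sub_nonneg.2 (hle α (by linarith) ?_))
      have h2 : x2 - x1 = α - 2 * π / 9 := by rw [hαm]; push_cast; ring
      rw [h2, abs_of_nonpos (by linarith : α - 2 * π / 9 ≤ 0)] at he
      linarith
    · have h2 : x2 - x1 = α - 2 * π / 9 := by rw [hαm]; push_cast; ring
      rw [h2, abs_of_nonneg (by linarith : 0 ≤ α - 2 * π / 9)] at he
      have h3 : α ≤ 4 * π / 9 := by
        have := abs_nonneg (x1 + x2)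
        linarith
      rw [hG2 h h3, e1]
      have h4 := hle (4 * π / 9 - α) (by linarith) (by linarith)
      have h5 : cos (4 * π / 9 - α) - cos α = 2 * sin (2 * π / 9) * sin (α - 2 * π / 9) := by
        rw [sin_sub, cos_sub, c49_eq, s49_eq]
        linear_combination (2 * cos α) * hsc
      have h6 : 2 * sin (2 * π / 9) * sin (α - 2 * π / 9) ≤ cos (x1 + x2) - cos α := by linarith
      have h7 := mul_le_mul_of_nonneg_left h6 hP1.le
      linarith
  · -- m = 2
    have h2 : x2 - x1 = α - 4 * π / 9 := by rw [hαm]; push_cast; ring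
    have e1 : W = 2 * sin (2 * π / 9) ^ 2 * (cos (x1 + x2) - cos α)
        - 2 * sin (2 * π / 9) * (1 - cos (2 * π / 9)) * sin α := by
      rw [hW]
      push_cast
      rw [show 2 * π / 9 * 2 = 4 * π / 9 by ring, cos_sub, c49_eq, s49_eq]
      linear_combination (-(2 * cos (x1 + x2) - 2 * cos α)) * hsc
    rcases le_or_gt α (4 * π / 9) with h | h
    · rw [h2, abs_of_nonpos (by linarith : α - 4 * π / 9 ≤ 0)] at he
      have h3 : 2 * π / 9 ≤ α := by
        have := abs_nonneg (x1 + x2)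
        linarith
      have h4 := hle (α - 2 * π / 9) (by linarith) (by linarith)
      have h5 : 2 * (1 - cos (2 * π / 9)) * sin (2 * π / 9) * sin (α - 2 * π / 9) ≤ W := by
        rw [e1]
        have h6 := mul_le_mul_of_nonneg_left h4
          (by positivity : 0 ≤ 2 * sin (2 * π / 9) ^ 2)
        have h7 : 2 * (1 - cos (2 * π / 9)) * sin (2 * π / 9) * sin (α - 2 * π / 9)
            = 2 * sin (2 * π / 9) ^ 2 * cos (α - 2 * π / 9) - 2 * sin (2 * π / 9) ^ 2 * cos α
              - 2 * sin (2 * π / 9) * (1 - cos (2 * π / 9)) * sin α := by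
          rw [sin_sub, cos_sub]
          linear_combination (-(2 * sin (2 * π / 9) * sin α)) * hsc
        linarith
      rcases h3.eq_or_lt with h6 | h6
      · rw [hG1 h6.symm.le]
        refine le_trans ?_ h5
        rw [← h6, sub_self, sin_zero, mul_zero]
      · rw [hG2 h6 h]
        exact h5
    · rw [h2, abs_of_nonneg (by linarith : 0 ≤ α - 4 * π / 9)] at he
      have h4 := hle (2 * π / 3 - α) (by linarith) (by linarith)
      rw [hG3 h, e1]
      have h5 : cos (2 * π / 3 - α) - cos α = 2 * sin (π / 3) * sin (α - π / 3) := by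
        rw [sin_sub, cos_sub, show 2 * π / 3 = 2 * (π / 3) by ring, cos_two_mul, sin_two_mul,
          cos_pi_div_three]
        linear_combination (2 * cos α) * hT2
      have h6 : 2 * sin (π / 3) * sin (α - π / 3) ≤ cos (x1 + x2) - cos α := by linarith
      have h7 := mul_le_mul_of_nonneg_left h6 (by positivity : 0 ≤ 2 * sin (2 * π / 9) ^ 2)
      linarith
  · -- m = 3
    have h2 : x2 - x1 = α - 2 * π / 3 := by rw [hαm]; push_cast; ring
    have e1 : W = 3 / 2 * (cos (x1 + x2) - cos α) + sin α * (sin (π / 3) - 3 * sin (2 * π / 9)) := by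
      rw [hW]
      push_cast
      rw [show 2 * π / 9 * 3 = π - π / 3 by ring, cos_sub α, cos_pi_sub, sin_pi_sub,
        cos_pi_div_three]
      ring
    rw [h2, abs_of_nonpos (by linarith : α - 2 * π / 3 ≤ 0)] at he
    have h3 : 4 * π / 9 ≤ α := by
      have := abs_nonneg (x1 + x2)
      linarith
    have h4 := hle (α - 4 * π / 9) (by linarith) (by linarith)
    have h5 : 4 * sin (2 * π / 9) ^ 2 * sin (π / 3) * sin (α - π / 3)
        - 2 * (1 - cos (2 * π / 9)) * sin (2 * π / 9) * sin α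
        = 3 / 2 * (cos (α - 4 * π / 9) - cos α)
          + sin α * (sin (π / 3) - 3 * sin (2 * π / 9)) := by
      rw [sin_sub, cos_sub, c49_eq, s49_eq, cos_pi_div_three]
      have k1 : sin (2 * π / 9) * cos (2 * π / 9) - sin (2 * π / 9)
          + sin (π / 3) * (2 * cos (2 * π / 9) ^ 2 - 1) = 0 := by
        rw [hs3]
        linear_combination (2 * sin (2 * π / 9) * cos (2 * π / 9)) * hc3
      linear_combination (-(4 * sin (2 * π / 9) ^ 2 * cos α)) * hT2 + (-sin α) * k1
        + (-(3 * cos α) + 2 * sin (π / 3) * sin α) * hsc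
    have h6 : 4 * sin (2 * π / 9) ^ 2 * sin (π / 3) * sin (α - π / 3)
        - 2 * (1 - cos (2 * π / 9)) * sin (2 * π / 9) * sin α ≤ W := by
      rw [h5, e1]
      linarith
    rcases h3.eq_or_lt with h7 | h7
    · rw [hG2 (by linarith) h7.symm.le]
      refine le_trans (le_of_eq ?_) h6
      rw [h5, ← h7, show 4 * π / 9 - 2 * π / 9 = 2 * π / 9 by ring, sub_self, cos_zero, c49_eq,
        s49_eq, hs3]
      linear_combination 3 * hsc + (-(2 * sin (2 * π / 9) ^ 2)) * hc3
    · rw [hG3 h7]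
      exact h6

end Pool.Agent.W120.NO
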