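import Pool.Agent.W120.NO.Cell
import Pool.Agent.Helper658.Hull

set_option autoImplicit false

/-! NO-11 (helper120): saturation and perturbation -/

open Real MeasureTheory Metric Set Filter Topology

namespace Pool.Agent.W120.NO
open Pool.Agent.W259.Nona Pool.Agent.Helper658

theorem sep_of_far (a b : E2) (ωa ωb : ℝ) (h : 2.1284 < dist a b) : Sep a b ωa ωb := by
  set z : ℂ := ⟨b 0 - a 0, b 1 - a 1⟩ with hz
  refine ⟨Complex.arg z, ?_⟩
  have h1 := Complex.norm_mul_cos_arg z
  have h2 := Complex.norm_mul_sin_arg z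
  have h3 : z.re = b 0 - a 0 := rfl
  have h4 : z.im = b 1 - a 1 := rfl
  rw [h3] at h1
  rw [h4] at h2
  have h5 : ‖z‖ ^ 2 = dist a b ^ 2 := by
    rw [dsq, ← Complex.normSq_eq_norm_sq, Complex.normSq_apply, h3, h4]; ring
  have h6 : ‖z‖ = dist a b := by
    rw [← abs_of_nonneg (norm_nonneg z), ← abs_of_nonneg (dist_nonneg (x := a) (y := b))]
    exact (sq_eq_sq_iff_abs_eq_abs _ _).1 h5
  rw [← h1, ← h2]
  have h7 : ‖z‖ * cos (Complex.arg z) * cos (Complex.arg z)
      + ‖z‖ * sin (Complex.arg z) * sin (Complex.arg z) = ‖z‖ := by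
    have := sin_sq_add_cos_sq (Complex.arg z)
    calc _ = ‖z‖ * (sin (Complex.arg z) ^ 2 + cos (Complex.arg z) ^ 2) := by ring
      _ = ‖z‖ := by rw [this, mul_one]
  rw [h7, h6]
  have h8 := supp_lt (Complex.arg z - ωa)
  have h9 := supp_lt (Complex.arg z + π - ωb)
  linarith

theorem saturate : SaturateStmt := by
  classical
  intro F ω s hF
  obtain ⟨G, hGs, hGfin, hG⟩ := (isCompact_closedBall (0 : E2) s).finite_cover_balls
    (e := 0.0001) (by norm_num)
  set P : Finset E2 → Prop := fun G' =>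
    ∀ a ∈ F ∪ G', ∀ b ∈ F ∪ G', a ≠ b → Sep a b (ω a) (ω b) with hP
  set S : Finset (Finset E2) := hGfin.toFinset.powerset.filter P with hS
  have hne : S.Nonempty := by
    refine ⟨∅, ?_⟩
    rw [hS, Finset.mem_filter, hP]
    refine ⟨Finset.empty_mem_powerset _, ?_⟩
    simp only [Finset.union_empty]
    exact hF
  obtain ⟨G', hG', hmax⟩ := Finset.exists_max_image S Finset.card hne
  rw [hS, Finset.mem_filter] at hG'
  refine ⟨F ∪ G', Finset.subset_union_left, hG'.2, ?_⟩
  intro x hx
  have hx2 := hG hx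
  simp only [mem_iUnion, exists_prop] at hx2
  obtain ⟨g, hg, hxg⟩ := hx2
  rw [mem_ball] at hxg
  by_cases hp : ∃ p ∈ F ∪ G', dist p g ≤ 2.1284
  · obtain ⟨p, hp, hpg⟩ := hp
    refine ⟨p, hp, ?_⟩
    have := dist_triangle p g x
    rw [dist_comm g x] at this
    linarith
  · exfalso
    push Not at hp
    have hgn : g ∉ G' := by
      intro h
      have := hp g (Finset.mem_union_right _ h)
      rw [dist_self] at this
      norm_num at this
    have h1 : insert g G' ∈ S := by
      rw [hS, Finset.mem_filter]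
      refine ⟨?_, ?_⟩
      · rw [Finset.mem_powerset]
        intro y hy
        rw [Finset.mem_insert] at hy
        rcases hy with rfl | hy
        · exact hGfin.mem_toFinset.2 hg
        · exact (Finset.mem_powerset.1 hG'.1) hy
      · rw [hP]
        have h2 : F ∪ insert g G' = insert g (F ∪ G') := by
          ext y; simp only [Finset.mem_union, Finset.mem_insert]; tauto
        show ∀ a ∈ F ∪ insert g G', ∀ b ∈ F ∪ insert g G', a ≠ b → Sep a b (ω a) (ω b)
        rw [h2]
        intro a ha b hb hab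
        rw [Finset.mem_insert] at ha hb
        rcases ha with rfl | ha <;> rcases hb with rfl | hb
        · exact absurd rfl hab
        · exact sep_of_far _ _ _ _ (by rw [dist_comm]; exact hp b hb)
        · exact sep_of_far _ _ _ _ (hp a ha)
        · exact hG'.2 a ha b hb hab
    have h3 := hmax _ h1
    rw [Finset.card_insert_of_notMem hgn] at h3
    omega

/-- the centre of a circle through three points is unique -/
theorem centre_unique {p q w o o' : E2} (hpq : p ≠ q) (hpw : p ≠ w) (hqw : q ≠ w)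
    (h1 : dist p o = dist q o) (h2 : dist p o = dist w o)
    (h1' : dist p o' = dist q o') (h2' : dist p o' = dist w o') : o = o' := by
  have e1 : dist p o ^ 2 = dist q o ^ 2 := by rw [h1]
  have e2 : dist p o ^ 2 = dist w o ^ 2 := by rw [h2]
  have e1' : dist p o' ^ 2 = dist q o' ^ 2 := by rw [h1']
  have e2' : dist p o' ^ 2 = dist w o' ^ 2 := by rw [h2']
  rw [dsq, dsq] at e1 e2 e1' e2'
  have hD : ((q 0 - p 0) * (w 1 - p 1) - (q 1 - p 1) * (w 0 - p 0)) ≠ 0 := by
    intro hD
    have hid := circ_identity (p 0 - o 0) (p 1 - o 1) (q 0 - o 0) (q 1 - o 1) (w 0 - o 0)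
      (w 1 - o 1) ((p 0 - o 0) ^ 2 + (p 1 - o 1) ^ 2) rfl e1.symm e2.symm
    have hD' : ((q 0 - o 0) - (p 0 - o 0)) * ((w 1 - o 1) - (p 1 - o 1))
        - ((q 1 - o 1) - (p 1 - o 1)) * ((w 0 - o 0) - (p 0 - o 0)) = 0 := by
      rw [← hD]; ring
    rw [hD'] at hid
    have f1 : (p 0 - o 0 - (q 0 - o 0)) ^ 2 + (p 1 - o 1 - (q 1 - o 1)) ^ 2 = dist p q ^ 2 := by
      rw [dsq]; ring
    have f2 : (q 0 - o 0 - (w 0 - o 0)) ^ 2 + (q 1 - o 1 - (w 1 - o 1)) ^ 2 = dist q w ^ 2 := by
      rw [dsq]; ring
    have f3 : (w 0 - o 0 - (p 0 - o 0)) ^ 2 + (w 1 - o 1 - (p 1 - o 1)) ^ 2 = dist w p ^ 2 := by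
      rw [dsq]; ring
    rw [f1, f2, f3] at hid
    have g1 : 0 < dist p q ^ 2 := by have := dist_pos.2 hpq; positivity
    have g2 : 0 < dist q w ^ 2 := by have := dist_pos.2 hqw; positivity
    have g3 : 0 < dist w p ^ 2 := by have := dist_pos.2 hpw.symm; positivity
    have g4 : 0 < dist p q ^ 2 * dist q w ^ 2 * dist w p ^ 2 := by positivity
    simp at hid
    rcases hid with (h | h) | h
    · exact hpq h
    · exact hqw h
    · exact hpw h.symm
  set x := o' 0 - o 0 with hx
  set y := o' 1 - o 1 with hy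
  have k1 : (q 0 - p 0) * x + (q 1 - p 1) * y = 0 := by rw [hx, hy]; linarith
  have k2 : (w 0 - p 0) * x + (w 1 - p 1) * y = 0 := by rw [hx, hy]; linarith
  have k3 : ((q 0 - p 0) * (w 1 - p 1) - (q 1 - p 1) * (w 0 - p 0)) * x = 0 := by
    linear_combination (w 1 - p 1) * k1 - (q 1 - p 1) * k2
  have k4 : ((q 0 - p 0) * (w 1 - p 1) - (q 1 - p 1) * (w 0 - p 0)) * y = 0 := by
    linear_combination (q 0 - p 0) * k2 - (w 0 - p 0) * k1
  have hx0 : x = 0 := (mul_eq_zero.1 k3).resolve_left hD
  have hy0 : y = 0 := (mul_eq_zero.1 k4).resolve_left hD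
  ext i
  fin_cases i
  · simp only [Fin.zero_eta]; linarith
  · simp only [Fin.mk_one]; linarith

/-- one more point in general position -/
theorem gen_insert [DecidableEq E2] (S : Finset E2) (hS : Gen S) (a : E2) (ε : ℝ) (hε : 0 < ε) :
    ∃ z ∈ ball a ε, Gen (insert z S) := by
  set Bad : E2 × E2 × E2 → Set E2 := fun t => {d | t.1 ≠ t.2.1 ∧ t.1 ≠ t.2.2 ∧ t.2.1 ≠ t.2.2 ∧
    ∃ o : E2, dist t.1 o = dist t.2.1 o ∧ dist t.1 o = dist t.2.2 o ∧ dist t.1 o = dist d o}
    with hBad
  have hnull : ∀ t, volume (Bad t) = 0 := by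
    intro t
    rcases eq_empty_or_nonempty (Bad t) with h | ⟨d, h1, h2, h3, o, h4, h5, h6⟩
    · rw [h, measure_empty]
    · refine measure_mono_null (t := sphere o (dist t.1 o)) ?_ (Measure.addHaar_sphere _ _ _)
      rintro d' ⟨_, _, _, o', h4', h5', h6'⟩
      have : o = o' := centre_unique h1 h2 h3 h4 h5 h4' h5'
      rw [mem_sphere, this, h6']
  set T : Finset (E2 × E2 × E2) := S ×ˢ S ×ˢ S with hT
  have hU : volume (⋃ t ∈ T, Bad t) = 0 := by
    exact (measure_biUnion_null_iff T.countable_toSet).2 fun t _ => hnull t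
  have hex : ∃ z ∈ ball a ε, z ∉ ⋃ t ∈ T, Bad t := by
    by_contra hno
    push Not at hno
    have h1 : ball a ε ⊆ ⋃ t ∈ T, Bad t := hno
    have h2 : 0 < volume (ball a ε) := measure_ball_pos _ _ hε
    have h3 := measure_mono (μ := volume) h1
    rw [hU] at h3
    exact absurd h3 (not_le.2 h2)
  obtain ⟨z, hz, hzn⟩ := hex
  refine ⟨z, hz, ?_⟩
  intro o r
  have hSor : (S.filter (fun p => dist p o = r)).card ≤ 3 := by
    have := hS o r
    convert this
  by_cases hzS : z ∈ S
  · rw [Finset.insert_eq_of_mem hzS]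
    exact hS o r
  by_cases hd : dist z o = r
  · rw [Finset.filter_insert, if_pos hd]
    by_contra hgt
    push Not at hgt
    have h1 : 2 < (S.filter (fun p => dist p o = r)).card := by
      have h2 := Finset.card_insert_le z (S.filter (fun p => dist p o = r))
      have h3 : 3 < (insert z (S.filter (fun p => dist p o = r))).card := by
        convert hgt
      omega
    obtain ⟨p, hp, q, hq, w, hw, hpq, hpw, hqw⟩ := Finset.two_lt_card.1 h1
    rw [Finset.mem_filter] at hp hq hw
    apply hzn
    simp only [mem_iUnion, exists_prop]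
    refine ⟨(p, q, w), ?_, hpq, hpw, hqw, o, ?_, ?_, ?_⟩
    · rw [hT, Finset.mem_product, Finset.mem_product]
      exact ⟨hp.1, hq.1, hw.1⟩
    · show dist p o = dist q o
      rw [hp.2, hq.2]
    · show dist p o = dist w o
      rw [hp.2, hw.2]
    · show dist p o = dist z o
      rw [hp.2, hd]
  · rw [Finset.filter_insert, if_neg hd]
    exact hS o r

theorem generic : GenericStmt := by
  classical
  intro F ε hε _
  induction F using Finset.induction_on with
  | empty =>
    refine ⟨id, by simp, ?_⟩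
    intro o r
    simp
  | insert a F ha ih =>
    rename_i hsep
    obtain ⟨g, hg, hgen⟩ := ih (fun a' ha' b' hb' hab => hsep a'
      (Finset.mem_insert_of_mem ha') b' (Finset.mem_insert_of_mem hb') hab)
    obtain ⟨z, hz, hzg⟩ := gen_insert (F.image g) hgen a ε hε
    refine ⟨Function.update g a z, ?_, ?_⟩
    · intro x hx
      rw [Finset.mem_insert] at hx
      rcases hx with rfl | hx
      · rw [Function.update_self]
        exact (mem_ball.1 hz).le
      · rw [Function.update_of_ne (by rintro rfl; exact ha hx)]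
        exact hg x hx
    · rw [Finset.image_insert, Function.update_self]
      have : F.image (Function.update g a z) = F.image g := by
        apply Finset.image_congr
        intro x hx
        rw [Function.update_of_ne (by rintro rfl; exact ha (Finset.mem_coe.1 hx))]
      rw [this]
      exact hzg

end Pool.Agent.W120.NO
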