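import Pool.Agent.W120.NO.Cell

set_option autoImplicit false

/-! NO-7 (helper120): the two cells with a given middle vertex -/

open Real MeasureTheory Metric Set Filter Topology

namespace Pool.Agent.W120.NO
open Pool.Agent.W259.Nona

/-- a point of the hull other than `a` on the level line of `a` has sites strictly on both sides -/
theorem exists_side (A : Finset E2) (l : E2 → ℝ) (hl : ∃ α β : ℝ, ∀ p, l p = α * p 0 + β * p 1)
    (a x : E2) (hinj : ∀ p ∈ A, l p = l a → p = a) (hx : x ∈ convexHull ℝ (A : Set E2))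
    (hxa : x ≠ a) (hlx : l x = l a) : ∃ b ∈ A, l b < l a := by
  by_contra hno
  push Not at hno
  rw [Finset.mem_convexHull'] at hx
  obtain ⟨w, hw0, hw1, hwx⟩ := hx
  obtain ⟨α, β, hl⟩ := hl
  have h1 : ∑ y ∈ A, w y * (l y - l a) = 0 := by
    have h2 : ∑ y ∈ A, w y * l y = l x := by
      rw [← hwx, hl]
      simp only [WithLp.ofLp_sum, WithLp.ofLp_smul, Finset.sum_apply, Pi.smul_apply, smul_eq_mul,
        Finset.mul_sum, ← Finset.sum_add_distrib]
      refine Finset.sum_congr rfl fun y _ => ?_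
      rw [hl y]; ring
    have h3 : ∑ y ∈ A, w y * (l y - l a) = ∑ y ∈ A, w y * l y - (∑ y ∈ A, w y) * l a := by
      rw [Finset.sum_mul, ← Finset.sum_sub_distrib]
      refine Finset.sum_congr rfl fun y _ => by ring
    rw [h3, h2, hw1, hlx]; ring
  have h2 : ∀ y ∈ A, w y * (l y - l a) = 0 :=
    (Finset.sum_eq_zero_iff_of_nonneg fun y hy =>
      mul_nonneg (hw0 y hy) (by have := hno y hy; linarith)).1 h1
  have h3 : ∀ y ∈ A, w y • y = w y • a := by
    intro y hy
    rcases mul_eq_zero.1 (h2 y hy) with h | h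
    · rw [h, zero_smul, zero_smul]
    · rw [hinj y hy (by linarith)]
  apply hxa
  rw [← hwx, Finset.sum_congr rfl h3, ← Finset.sum_smul, hw1, one_smul]

theorem mid_aux (F : Finset E2) (t s : ℝ) (hs : s ≠ 0) (a : E2) (hG : Gen F)
    (hinj : ∀ p ∈ F, ∀ q ∈ F, p 0 + t * p 1 = q 0 + t * q 1 → p = q) (ha : a ∈ F)
    (hcov : ∀ x ∈ closedBall a 8, ∃ p ∈ F, dist p x ≤ 2.13) :
    ∃ (b c : E2) (o : E2) (r : ℝ), b ∈ F ∧ c ∈ F ∧ r ≤ 2.13 ∧ (∀ p ∈ F, r ≤ dist p o) ∧
      dist a o = r ∧ dist b o = r ∧ dist c o = r ∧ b 0 + t * b 1 < a 0 + t * a 1 ∧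
      a 0 + t * a 1 < c 0 + t * c 1 ∧ 0 < s * area3 a b c := by
  classical
  set e : E2 := s • !₂[t, -1] with he
  have he0 : e 0 = s * t := by simp [he]
  have he1 : e 1 = -s := by simp [he]
  have hene : e ≠ 0 := by
    intro h
    apply hs
    have : e 1 = 0 := by rw [h]; simp
    rw [he1] at this
    linarith
  obtain ⟨o, r, hr, hge, haA, δ, hδ, hxA⟩ := near_cell F a e hene (fun x hx => hcov x (by
    rw [mem_closedBall] at hx ⊢
    linarith))
  have hr0 : 0 ≤ r := by
    by_contra h
    have h2 : ({p : E2 | p ∈ F ∧ dist p o = r} : Set E2) = ∅ := by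
      ext p
      simp only [mem_ofPred_eq, mem_empty_iff_false, iff_false, not_and]
      intro _ h3
      have := dist_nonneg (x := p) (y := o)
      linarith
    rw [h2] at haA
    simp at haA
  have hao : dist a o = r := by
    have h1 : a ∈ closedBall o r := by
      refine convexHull_min ?_ (convex_closedBall o r) haA
      rintro p ⟨_, hp⟩
      rw [mem_closedBall, hp]
    rw [mem_closedBall] at h1
    exact le_antisymm h1 (hge a ha)
  set A : Finset E2 := F.filter fun p => dist p o = r with hAdef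
  have hAset : (A : Set E2) = {p : E2 | p ∈ F ∧ dist p o = r} := by
    ext p; simp [hAdef]
  have hAmem : ∀ p, p ∈ A ↔ p ∈ F ∧ dist p o = r := by
    intro p; rw [hAdef, Finset.mem_filter]
  have haA' : a ∈ A := (hAmem a).2 ⟨ha, hao⟩
  have hcard : A.card ≤ 3 := by
    have h3 := hG o r
    convert h3
  rw [← hAset] at hxA
  have hxne : a + δ • e ≠ a := by
    intro h
    have h1 : δ • e = 0 := by simpa using h
    rcases smul_eq_zero.1 h1 with h2 | h2
    · linarith
    · exact hene h2
  have hx0 : (a + δ • e) 0 = a 0 + δ * (s * t) := by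
    rw [PiLp.add_apply, PiLp.smul_apply, smul_eq_mul, he0]
  have hx1 : (a + δ • e) 1 = a 1 - δ * s := by
    rw [PiLp.add_apply, PiLp.smul_apply, smul_eq_mul, he1]; ring
  obtain ⟨b, hb, hlb⟩ := exists_side A (fun p => p 0 + t * p 1) ⟨1, t, fun p => by simp⟩ a
    (a + δ • e) (fun p hp h => hinj p ((hAmem p).1 hp).1 a ha h) hxA hxne (by
      simp only [hx0, hx1]; ring)
  obtain ⟨c, hc, hlc⟩ := exists_side A (fun p => -(p 0 + t * p 1))
    ⟨-1, -t, fun p => by ring⟩ a
    (a + δ • e) (fun p hp h => hinj p ((hAmem p).1 hp).1 a ha (by linarith)) hxA hxne (by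
      simp only [hx0, hx1]; ring)
  have hlc' : a 0 + t * a 1 < c 0 + t * c 1 := by
    have : -(c 0 + t * c 1) < -(a 0 + t * a 1) := hlc
    linarith
  have hlb' : b 0 + t * b 1 < a 0 + t * a 1 := hlb
  have hab : a ≠ b := by rintro rfl; exact lt_irrefl _ hlb'
  have hac : a ≠ c := by rintro rfl; exact lt_irrefl _ hlc'
  have hbc : b ≠ c := by rintro rfl; exact lt_irrefl _ (hlb'.trans hlc')
  have hsub : ({a, b, c} : Finset E2) ⊆ A := by
    intro p hp
    simp only [Finset.mem_insert, Finset.mem_singleton] at hp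
    rcases hp with rfl | rfl | rfl
    · exact haA'
    · exact hb
    · exact hc
  have hc3 : ({a, b, c} : Finset E2).card = 3 := by
    rw [Finset.card_insert_of_notMem (by simp [hab, hac]),
      Finset.card_insert_of_notMem (by simp [hbc]), Finset.card_singleton]
  have hAeq : ({a, b, c} : Finset E2) = A := Finset.eq_of_subset_of_card_le hsub (by omega)
  refine ⟨b, c, o, r, ((hAmem b).1 hb).1, ((hAmem c).1 hc).1, hr, hge, hao, ((hAmem b).1 hb).2,
    ((hAmem c).1 hc).2, hlb', hlc', ?_⟩
  by_contra hno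
  push Not at hno
  -- `s * ((p - a) × (c - a)) ≤ 0` on the vertices
  have h1 := hull_le hxA (s * (c 1 - a 1)) (-(s * (c 0 - a 0)))
    (s * (c 1 - a 1) * a 0 - s * (c 0 - a 0) * a 1) (fun p hp => by
      rw [← hAeq] at hp
      simp only [Finset.coe_insert, Finset.coe_singleton, mem_insert_iff, mem_singleton_iff] at hp
      rcases hp with rfl | rfl | rfl
      · linarith
      · unfold area3 at hno
        nlinarith
      · nlinarith)
  rw [hx0, hx1] at h1
  have h2 : 0 < s ^ 2 := by positivity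
  have h3 : 0 < δ * s ^ 2 * ((c 0 + t * c 1) - (a 0 + t * a 1)) := by
    have : 0 < (c 0 + t * c 1) - (a 0 + t * a 1) := by linarith
    positivity
  nlinarith

theorem mid : MidStmt := by
  intro F t a hG hinj ha hcov
  obtain ⟨b, c, o, r, hb, hc, hr, hge, hao, hbo, hco, hlb, hlc, hpos⟩ :=
    mid_aux F t 1 one_ne_zero a hG hinj ha hcov
  obtain ⟨c', b', o', r', hc', hb', hr', hge', hao', hco', hbo', hlc', hlb', hpos'⟩ :=
    mid_aux F t (-1) (by norm_num) a hG hinj ha hcov
  refine ⟨b, c, b', c', ⟨ha, hb, hc, by linarith, o, r, hr, hao, hbo, hco, hge⟩,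
    ⟨ha, hb', hc', ?_, o', r', hr', hao', hbo', hco', hge'⟩, ?_, ?_, ?_⟩
  · have : area3 a b' c' = - area3 a c' b' := by unfold area3; ring
    rw [this]
    linarith
  · intro h
    rw [Prod.mk.injEq] at h
    rw [h.1] at hlb
    linarith
  · exact mul_neg_of_neg_of_pos (by linarith) (by linarith)
  · exact mul_neg_of_pos_of_neg (by linarith) (by linarith)

end Pool.Agent.W120.NO
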