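import Pool.Agent.W120.NO.Shape

set_option autoImplicit false

/-! NO-9 (helper120): separation and congruent copies -/

open Real MeasureTheory Metric Set Filter Topology

namespace Pool.Agent.W120.NO
open Pool.Agent.W259.Nona Pool.Agent.Helper658

/-- the values of a linear functional on the vertices -/
theorem sep : SepStmt := by
  intro a b ωa ωb hdisj
  obtain ⟨f, u, hfA, hfB⟩ := geometric_hahn_banach_open_open (body_convex a ωa).interior
    isOpen_interior (body_convex b ωb).interior isOpen_interior hdisj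
  have hA : ∀ x ∈ body a ωa, f x ≤ u := by
    intro x hx
    have h1 : x ∈ closure (interior (body a ωa)) := by
      rw [(body_convex a ωa).closure_interior_eq_closure_of_nonempty_interior (interior_body _ _)]
      exact subset_closure hx
    exact closure_minimal (fun x hx => (hfA x hx).le) (isClosed_Iic.preimage f.continuous) h1
  have hB : ∀ x ∈ body b ωb, u ≤ f x := by
    intro x hx
    have h1 : x ∈ closure (interior (body b ωb)) := by
      rw [(body_convex b ωb).closure_interior_eq_closure_of_nonempty_interior (interior_body _ _)]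
      exact subset_closure hx
    exact closure_minimal (fun x hx => (hfB x hx).le) (isClosed_Ici.preimage f.continuous) h1
  set A0 := f (!₂[1, 0] : E2) with hA0
  set A1 := f (!₂[0, 1] : E2) with hA1
  have hf : ∀ x : E2, f x = A0 * x 0 + A1 * x 1 := by
    intro x
    have h1 : x = x 0 • (!₂[1, 0] : E2) + x 1 • (!₂[0, 1] : E2) := by
      ext i; fin_cases i <;> simp
    conv_lhs => rw [h1]
    rw [map_add, map_smul, map_smul, smul_eq_mul, smul_eq_mul]
    ring
  set z : ℂ := ⟨A0, A1⟩ with hz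
  have hre : ‖z‖ * cos (Complex.arg z) = A0 := Complex.norm_mul_cos_arg z
  have him : ‖z‖ * sin (Complex.arg z) = A1 := Complex.norm_mul_sin_arg z
  set φ := Complex.arg z with hφ
  have hzpos : 0 < ‖z‖ := by
    rw [norm_pos_iff]
    intro h0
    obtain ⟨p, hp⟩ := interior_body a ωa
    obtain ⟨q, hq⟩ := interior_body b ωb
    have h1 := hfA p hp
    have h2 := hfB q hq
    rw [h0, norm_zero, zero_mul] at hre him
    rw [hf, ← hre, ← him] at h1 h2
    simp at h1 h2
    linarith
  refine ⟨φ, ?_⟩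
  obtain ⟨k, hk⟩ := exists_off (φ - ωa)
  obtain ⟨l, hl⟩ := exists_off (φ + π - ωb)
  have e1 := hA _ (vtx_mem a ωa k)
  have e2 := hB _ (vtx_mem b ωb l)
  rw [hf, vtx0, vtx1, ← hre, ← him] at e1 e2
  have c1 : cos φ * cos (ωa + 2 * π / 9 * k) + sin φ * sin (ωa + 2 * π / 9 * k)
      = cos (off (φ - ωa)) := by
    rw [← cos_sub]; congr 1; linarith
  have c2 : cos φ * cos (ωb + 2 * π / 9 * l) + sin φ * sin (ωb + 2 * π / 9 * l)
      = -cos (off (φ + π - ωb)) := by
    rw [← cos_sub, ← cos_sub_pi]; congr 1; linarith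
  have f1 : supp (φ - ωa) = cos φ * (cos (ωa + 2 * π / 9 * k) / cos (π / 9))
      + sin φ * (sin (ωa + 2 * π / 9 * k) / cos (π / 9)) := by
    unfold supp; rw [← c1]; ring
  have f2 : supp (φ + π - ωb) = -(cos φ * (cos (ωb + 2 * π / 9 * l) / cos (π / 9))
      + sin φ * (sin (ωb + 2 * π / 9 * l) / cos (π / 9))) := by
    unfold supp
    rw [show cos (off (φ + π - ωb)) = -(cos φ * cos (ωb + 2 * π / 9 * l)
      + sin φ * sin (ωb + 2 * π / 9 * l)) by rw [c2]; ring]
    ring
  have g : ‖z‖ * (supp (φ - ωa) + supp (φ + π - ωb))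
      ≤ ‖z‖ * ((b 0 - a 0) * cos φ + (b 1 - a 1) * sin φ) := by
    rw [f1, f2]
    nlinarith
  exact le_of_mul_le_mul_left g hzpos

theorem isom : IsomStmt := by
  intro f
  set g := f.toRealAffineIsometryEquiv with hg
  have hgf : ∀ x, g x = f x := fun x => by
    rw [hg]; exact congrFun (IsometryEquiv.coeFn_toRealAffineIsometryEquiv f) x
  set L := g.linearIsometryEquiv with hL
  have hfL : ∀ x, f x = L x + f 0 := by
    intro x
    have h1 := g.map_vadd 0 x
    rw [vadd_eq_add, add_zero, vadd_eq_add] at h1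
    rw [← hgf, ← hgf, h1]
  set p := L (!₂[1, 0] : E2) with hp
  set q := L (!₂[0, 1] : E2) with hq
  have hnp : p 0 ^ 2 + p 1 ^ 2 = 1 := by
    have h1 : ‖p‖ = 1 := by
      rw [hp, L.norm_map, EuclideanSpace.norm_eq]; simp [Fin.sum_univ_two]
    have h2 : ‖p‖ ^ 2 = p 0 ^ 2 + p 1 ^ 2 := by
      rw [EuclideanSpace.norm_sq_eq]; simp [Fin.sum_univ_two]
    rw [← h2, h1]; norm_num
  have hnq : q 0 ^ 2 + q 1 ^ 2 = 1 := by
    have h1 : ‖q‖ = 1 := by
      rw [hq, L.norm_map, EuclideanSpace.norm_eq]; simp [Fin.sum_univ_two]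
    have h2 : ‖q‖ ^ 2 = q 0 ^ 2 + q 1 ^ 2 := by
      rw [EuclideanSpace.norm_sq_eq]; simp [Fin.sum_univ_two]
    rw [← h2, h1]; norm_num
  have hpq : p 0 * q 0 + p 1 * q 1 = 0 := by
    have h1 : ‖p + q‖ ^ 2 = 2 := by
      rw [hp, hq, ← map_add, L.norm_map, EuclideanSpace.norm_sq_eq]
      simp [Fin.sum_univ_two]
      norm_num
    have h2 : ‖p + q‖ ^ 2 = (p 0 + q 0) ^ 2 + (p 1 + q 1) ^ 2 := by
      rw [EuclideanSpace.norm_sq_eq]; simp [Fin.sum_univ_two]
    nlinarith
  -- the angle
  set z : ℂ := ⟨p 0, p 1⟩ with hz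
  have hzn : ‖z‖ = 1 := by
    have h1 : ‖z‖ ^ 2 = 1 := by
      rw [← Complex.normSq_eq_norm_sq, Complex.normSq_apply]
      show p 0 * p 0 + p 1 * p 1 = 1
      linarith
    nlinarith [norm_nonneg z]
  have hre : ‖z‖ * cos (Complex.arg z) = p 0 := Complex.norm_mul_cos_arg z
  have him : ‖z‖ * sin (Complex.arg z) = p 1 := Complex.norm_mul_sin_arg z
  set ω := Complex.arg z with hω
  rw [hzn, one_mul] at hre him
  have hxL : ∀ x : E2, L x = x 0 • p + x 1 • q := by
    intro x
    have h1 : x = x 0 • (!₂[1, 0] : E2) + x 1 • (!₂[0, 1] : E2) := by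
      ext i; fin_cases i <;> simp
    conv_lhs => rw [h1]
    rw [map_add, map_smul, map_smul]
  -- the two orientations
  have hor : (q 0 = -p 1 ∧ q 1 = p 0) ∨ (q 0 = p 1 ∧ q 1 = -p 0) := by
    have h2 : (p 0 * q 1 - p 1 * q 0) ^ 2
        = (p 0 ^ 2 + p 1 ^ 2) * (q 0 ^ 2 + q 1 ^ 2) - (p 0 * q 0 + p 1 * q 1) ^ 2 := by ring
    rw [hnp, hnq, hpq] at h2
    have h3 : (p 0 * q 1 - p 1 * q 0 - 1) * (p 0 * q 1 - p 1 * q 0 + 1) = 0 := by linarith
    rcases mul_eq_zero.1 h3 with h | h
    · left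
      constructor
      · linear_combination p 0 * hpq - p 1 * h - q 0 * hnp
      · linear_combination p 1 * hpq + p 0 * h - q 1 * hnp
    · right
      constructor
      · linear_combination p 0 * hpq - p 1 * h - q 0 * hnp
      · linear_combination p 1 * hpq + p 0 * h - q 1 * hnp
  have himg : f '' Set.range (vtx 0 0) = Set.range (vtx (f 0) ω) := by
    have hv : ∀ k : ℤ, f (vtx 0 0 k) = f 0 + ((cos (2 * π / 9 * k) / cos (π / 9)) • p
        + (sin (2 * π / 9 * k) / cos (π / 9)) • q) := by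
      intro k
      rw [hfL, hxL, vtx0, vtx1]
      simp only [PiLp.zero_apply, zero_add]
      rw [add_comm]
    rcases hor with ⟨h1, h2⟩ | ⟨h1, h2⟩
    · have hk : ∀ k : ℤ, f (vtx 0 0 k) = vtx (f 0) ω k := by
        intro k
        rw [hv]
        ext i
        fin_cases i
        · simp only [Fin.zero_eta, PiLp.add_apply, PiLp.smul_apply, smul_eq_mul]
          rw [vtx0, h1, ← hre, ← him, cos_add]; ring
        · simp only [Fin.mk_one, PiLp.add_apply, PiLp.smul_apply, smul_eq_mul]
          rw [vtx1, h2, ← hre, ← him, sin_add]; ring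
      rw [← Set.range_comp]
      congr 1
      funext k
      exact hk k
    · have hk : ∀ k : ℤ, f (vtx 0 0 k) = vtx (f 0) ω (-k) := by
        intro k
        rw [hv]
        have e : ω + 2 * π / 9 * ((-k : ℤ) : ℝ) = ω - 2 * π / 9 * k := by push_cast; ring
        ext i
        fin_cases i
        · simp only [Fin.zero_eta, PiLp.add_apply, PiLp.smul_apply, smul_eq_mul]
          rw [vtx0, h1, ← hre, ← him, e, cos_sub]; ring
        · simp only [Fin.mk_one, PiLp.add_apply, PiLp.smul_apply, smul_eq_mul]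
          rw [vtx1, h2, ← hre, ← him, e, sin_sub]; ring
      ext x
      constructor
      · rintro ⟨_, ⟨k, rfl⟩, rfl⟩
        exact ⟨-k, (hk k).symm⟩
      · rintro ⟨k, rfl⟩
        exact ⟨_, ⟨-k, rfl⟩, by rw [hk, neg_neg]⟩
  refine ⟨f 0, ω, ?_⟩
  unfold body
  rw [← himg]
  have h1 : (f : E2 → E2) = (g.toAffineEquiv.toAffineMap : E2 → E2) := by
    funext x; exact (hgf x).symm
  rw [h1]
  exact AffineMap.image_convexHull _ _

end Pool.Agent.W120.NO
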