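import Pool.Agent.W120.NO.Area

set_option autoImplicit false

/-! NO-10 (helper120): area and shape of the nonagon -/

open Real MeasureTheory Metric Set Filter Topology

namespace Pool.Agent.W120.NO
open Pool.Agent.W259.Nona Pool.Agent.Helper658

theorem vtx0 (c : E2) (ω : ℝ) (k : ℤ) :
    vtx c ω k 0 = c 0 + cos (ω + 2 * π / 9 * k) / cos (π / 9) := by simp [vtx]

theorem vtx1 (c : E2) (ω : ℝ) (k : ℤ) :
    vtx c ω k 1 = c 1 + sin (ω + 2 * π / 9 * k) / cos (π / 9) := by simp [vtx]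

theorem vtx_add (c : E2) (ω : ℝ) (k m : ℤ) : vtx c ω (k + 9 * m) = vtx c ω k := by
  have e : ω + 2 * π / 9 * ((k + 9 * m : ℤ) : ℝ) = (ω + 2 * π / 9 * k) + m * (2 * π) := by
    push_cast; ring
  ext i
  fin_cases i
  · simp only [Fin.zero_eta]
    rw [vtx0, vtx0, e, cos_add_int_mul_two_pi]
  · simp only [Fin.mk_one]
    rw [vtx1, vtx1, e, sin_add_int_mul_two_pi]

theorem range_vtx (c : E2) (ω : ℝ) : Set.range (vtx c ω) = vtx c ω '' (Set.Icc 0 8) := by
  ext x
  constructor
  · rintro ⟨k, rfl⟩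
    refine ⟨k % 9, ⟨by omega, by omega⟩, ?_⟩
    conv_rhs => rw [show k = k % 9 + 9 * (k / 9) by omega]
    rw [vtx_add]
  · rintro ⟨k, _, rfl⟩
    exact ⟨k, rfl⟩

theorem finite_range (c : E2) (ω : ℝ) : (Set.range (vtx c ω)).Finite := by
  rw [range_vtx]
  exact (Set.finite_Icc 0 8).image _

theorem body_compact (c : E2) (ω : ℝ) : IsCompact (body c ω) :=
  (finite_range c ω).isCompact_convexHull (𝕜 := ℝ)

theorem body_convex (c : E2) (ω : ℝ) : Convex ℝ (body c ω) := convex_convexHull ℝ _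

theorem vtx_mem (c : E2) (ω : ℝ) (k : ℤ) : vtx c ω k ∈ body c ω :=
  subset_convexHull _ _ ⟨k, rfl⟩

theorem sin23_pos : 0 < sin (2 * π / 3) :=
  sin_pos_of_pos_of_lt_pi (by linarith [pi_pos]) (by linarith [pi_pos])

theorem cos23 : cos (2 * π / 3) = -(1 / 2) := by
  rw [show 2 * π / 3 = π - π / 3 by ring, cos_pi_sub, cos_pi_div_three]

theorem cos43 : cos (4 * π / 3) = -(1 / 2) := by
  rw [show 4 * π / 3 = π / 3 + π by ring, cos_add_pi, cos_pi_div_three]

theorem sin43 : sin (4 * π / 3) = -sin (2 * π / 3) := by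
  rw [show 4 * π / 3 = 2 * π - 2 * π / 3 by ring, sin_two_pi_sub]

theorem ang0 (ω : ℝ) : ω + 2 * π / 9 * ((0 : ℤ) : ℝ) = ω := by push_cast; ring
theorem ang3 (ω : ℝ) : ω + 2 * π / 9 * ((3 : ℤ) : ℝ) = ω + 2 * π / 3 := by push_cast; ring
theorem ang6 (ω : ℝ) : ω + 2 * π / 9 * ((6 : ℤ) : ℝ) = ω + 4 * π / 3 := by push_cast; ring

theorem centre_mem (c : E2) (ω : ℝ) : c ∈ body c ω := by
  have h : c = (1 / 3 : ℝ) • vtx c ω 0 + (1 / 3 : ℝ) • vtx c ω 3 + (1 / 3 : ℝ) • vtx c ω 6 := by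
    ext i
    fin_cases i
    · simp only [Fin.zero_eta, PiLp.add_apply, PiLp.smul_apply, smul_eq_mul]
      rw [vtx0, vtx0, vtx0, ang0, ang3, ang6, cos_add ω (2 * π / 3), cos_add ω (4 * π / 3),
        cos23, cos43, sin43]
      ring
    · simp only [Fin.mk_one, PiLp.add_apply, PiLp.smul_apply, smul_eq_mul]
      rw [vtx1, vtx1, vtx1, ang0, ang3, ang6, sin_add ω (2 * π / 3), sin_add ω (4 * π / 3),
        cos23, cos43, sin43]
      ring
  have h2 := three (body_convex c ω) (vtx_mem c ω 0) (vtx_mem c ω 3) (vtx_mem c ω 6)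
    (a := 1 / 3) (b := 1 / 3) (c := 1 / 3) (by norm_num) (by norm_num) (by norm_num) (by norm_num)
  rw [← h] at h2
  exact h2

theorem area_036 (c : E2) (ω : ℝ) : 0 < area3 (vtx c ω 0) (vtx c ω 3) (vtx c ω 6) := by
  have h1 : area3 (vtx c ω 0) (vtx c ω 3) (vtx c ω 6)
      = 3 * sin (2 * π / 3) / (2 * cos (π / 9) ^ 2) := by
    unfold area3
    rw [vtx0, vtx0, vtx0, vtx1, vtx1, vtx1, ang0, ang3, ang6, cos_add ω (2 * π / 3),
      cos_add ω (4 * π / 3), sin_add ω (2 * π / 3), sin_add ω (4 * π / 3), cos23, cos43, sin43]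
    have h2 := sin_sq_add_cos_sq ω
    have h3 := c9_pos.ne'
    generalize sin (2 * π / 3) = S at *
    generalize cos (π / 9) = C at *
    generalize sin ω = a at *
    generalize cos ω = b at *
    field_simp
    linear_combination (12 * S) * h2
  rw [h1]
  have := sin23_pos
  have := c9_pos
  positivity

theorem interior_body (c : E2) (ω : ℝ) : (interior (body c ω)).Nonempty := by
  by_contra h
  rw [not_nonempty_iff_eq_empty] at h
  have h1 : body c ω ⊆ frontier (body c ω) := by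
    intro x hx
    rw [frontier, h, sdiff_empty]
    exact subset_closure hx
  have h2 : volume (body c ω) = 0 :=
    measure_mono_null h1 (Convex.addHaar_frontier volume (body_convex c ω))
  have h3 : convexHull ℝ {vtx c ω 0, vtx c ω 3, vtx c ω 6} ⊆ body c ω := by
    apply convexHull_mono
    rintro x (rfl | rfl | rfl) <;> exact ⟨_, rfl⟩
  have h4 := (vol_tri_ge (vtx c ω 0) (vtx c ω 3) (vtx c ω 6)).trans (measure_mono h3)
  rw [h2] at h4
  have h5 : 0 < ENNReal.ofReal (area3 (vtx c ω 0) (vtx c ω 3) (vtx c ω 6)) :=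
    ENNReal.ofReal_pos.2 (area_036 c ω)
  exact absurd h4 (not_le.2 h5)

theorem supp_pi9 : supp (π / 9) = 1 := by
  apply le_antisymm _ (supp_ge_one _)
  unfold supp
  have h1 : |off (π / 9)| = π / 9 := by
    unfold off
    have e : π / 9 / (2 * π / 9) = 1 / 2 := by field_simp
    rw [e]
    have e2 : round (1 / 2 : ℝ) = 1 := by
      rw [round_eq]; norm_num
    rw [e2]
    push_cast
    rw [abs_of_nonpos (by linarith [pi_pos])]
    ring
  rw [← cos_abs, h1, div_self c9_pos.ne']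

/-- the support inequality in the direction of an edge normal -/
theorem body_le (c : E2) (ω : ℝ) (k : ℤ) {x : E2} (hx : x ∈ body c ω) :
    cos (ω + 2 * π / 9 * k + π / 9) * (x 0 - c 0) + sin (ω + 2 * π / 9 * k + π / 9) * (x 1 - c 1)
      ≤ 1 := by
  set A := ω + 2 * π / 9 * k + π / 9 with hA
  have h1 := hull_le hx (cos A) (sin A) (1 + cos A * c 0 + sin A * c 1) (fun p hp => by
    obtain ⟨j, rfl⟩ := hp
    rw [vtx0, vtx1]
    have h2 := cos_le_supp (π / 9) (j - k)
    rw [supp_pi9] at h2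
    have h3 : cos (π / 9 - 2 * π / 9 * ((j - k : ℤ) : ℝ)) =
        cos A * cos (ω + 2 * π / 9 * j) + sin A * sin (ω + 2 * π / 9 * j) := by
      rw [← cos_sub]
      congr 1
      rw [hA]
      push_cast
      ring
    rw [h3, add_div] at h2
    have h4 : cos A * (cos (ω + 2 * π / 9 * j) / cos (π / 9))
      = cos A * cos (ω + 2 * π / 9 * j) / cos (π / 9) := by ring
    have h5 : sin A * (sin (ω + 2 * π / 9 * j) / cos (π / 9))
      = sin A * sin (ω + 2 * π / 9 * j) / cos (π / 9) := by ring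
    rw [mul_add, mul_add, h4, h5]
    linarith)
  linarith

theorem vol_sector (c : E2) (ω : ℝ) (k : ℤ) :
    volume (convexHull ℝ {c, vtx c ω k, vtx c ω (k + 1)}) ≤ ENNReal.ofReal (tan (π / 9)) := by
  refine (vol_tri _ _ _).trans (ENNReal.ofReal_le_ofReal ?_)
  rw [vtx0, vtx0, vtx1, vtx1]
  have h1 : (c 0 + cos (ω + 2 * π / 9 * k) / cos (π / 9) - c 0) *
      (c 1 + sin (ω + 2 * π / 9 * ((k + 1 : ℤ) : ℝ)) / cos (π / 9) - c 1) -
      (c 1 + sin (ω + 2 * π / 9 * k) / cos (π / 9) - c 1) *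
      (c 0 + cos (ω + 2 * π / 9 * ((k + 1 : ℤ) : ℝ)) / cos (π / 9) - c 0)
      = 2 * tan (π / 9) := by
    have h2 : sin ((ω + 2 * π / 9 * ((k + 1 : ℤ) : ℝ)) - (ω + 2 * π / 9 * k))
        = 2 * sin (π / 9) * cos (π / 9) := by
      rw [← s29_eq]; congr 1; push_cast; ring
    rw [t9_eq]
    have h3 := c9_pos.ne'
    generalize ω + 2 * π / 9 * (((k + 1 : ℤ)) : ℝ) = V at *
    generalize ω + 2 * π / 9 * (k : ℝ) = W at *
    rw [sin_sub] at h2
    generalize sin (π / 9) = s at *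
    generalize cos (π / 9) = C at *
    generalize sin V = a at *
    generalize cos V = b at *
    generalize sin W = d at *
    generalize cos W = e at *
    field_simp
    linear_combination h2
  rw [h1, abs_of_pos (by have := t9_pos; linarith)]
  linarith

theorem cover (c : E2) (ω : ℝ) :
    body c ω ⊆ ⋃ k ∈ Finset.range 9, convexHull ℝ {c, vtx c ω (k : ℤ), vtx c ω ((k : ℤ) + 1)} := by
  intro x hx
  -- polar coordinates
  obtain ⟨ρ, θ, hρ, hx0, hx1⟩ : ∃ ρ θ : ℝ, 0 ≤ ρ ∧ x 0 - c 0 = ρ * cos θ ∧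
      x 1 - c 1 = ρ * sin θ := by
    set z : ℂ := ⟨x 0 - c 0, x 1 - c 1⟩ with hz
    refine ⟨‖z‖, Complex.arg z, norm_nonneg _, ?_, ?_⟩
    · exact (Complex.norm_mul_cos_arg z).symm
    · exact (Complex.norm_mul_sin_arg z).symm
  have hP : (0:ℝ) < 2 * π / 9 := by positivity
  set k : ℤ := ⌊(θ - ω) / (2 * π / 9)⌋ with hk
  have hk1 : 2 * π / 9 * k ≤ θ - ω := by
    have := Int.floor_le ((θ - ω) / (2 * π / 9))
    rw [le_div_iff₀ hP] at this
    rw [← hk] at this
    linarith
  have hk2 : θ - ω ≤ 2 * π / 9 * (k + 1) := by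
    have := (Int.lt_floor_add_one ((θ - ω) / (2 * π / 9))).le
    rw [div_le_iff₀ hP] at this
    rw [← hk] at this
    linarith
  set R := (cos (π / 9))⁻¹ with hR
  have hc9 := c9_pos
  have hs9 := s9_pos
  have hpi := pi_pos
  set S := 2 * sin (π / 9) with hS
  have hSpos : 0 < S := by positivity
  set u := θ - ω - 2 * π / 9 * k with hu
  have hu0 : 0 ≤ u := by linarith
  have hu1 : u ≤ 2 * π / 9 := by
    have : 2 * π / 9 * ((k : ℝ) + 1) = 2 * π / 9 * k + 2 * π / 9 := by ring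
    linarith
  set β := ρ * sin u / S with hβ
  set α := ρ * sin (2 * π / 9 - u) / S with hα
  have hβ0 : 0 ≤ β := by
    have : 0 ≤ sin u := sin_nonneg_of_nonneg_of_le_pi hu0 (by linarith)
    positivity
  have hα0 : 0 ≤ α := by
    have : 0 ≤ sin (2 * π / 9 - u) := sin_nonneg_of_nonneg_of_le_pi (by linarith) (by linarith)
    positivity
  have hsum : α + β ≤ 1 := by
    have h1 := body_le c ω k hx
    rw [hx0, hx1] at h1
    have h2 : α + β = cos (ω + 2 * π / 9 * k + π / 9) * (ρ * cos θ)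
        + sin (ω + 2 * π / 9 * k + π / 9) * (ρ * sin θ) := by
      have e1 : θ = (ω + 2 * π / 9 * k + π / 9) + (u - π / 9) := by rw [hu]; ring
      have e2 : cos (ω + 2 * π / 9 * k + π / 9) * (ρ * cos θ)
        + sin (ω + 2 * π / 9 * k + π / 9) * (ρ * sin θ) = ρ * cos (u - π / 9) := by
        have : u - π / 9 = θ - (ω + 2 * π / 9 * k + π / 9) := by rw [hu]; ring
        rw [this, cos_sub]; ring
      rw [e2, hα, hβ, hS]
      have e3 : sin (2 * π / 9 - u) = sin (2 * π / 9) * cos u - cos (2 * π / 9) * sin u :=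
        sin_sub _ _
      rw [e3, cos_sub u (π / 9), s29_eq, c29_eq]
      have h4 := s9_sq
      have hs9' := s9_pos.ne'
      clear_value u
      clear e1 e2 e3 h1 hα0 hβ0 hα hβ
      generalize sin (π / 9) = s at *
      generalize cos (π / 9) = C at *
      generalize sin u = a at *
      generalize cos u = b at *
      field_simp
      linear_combination (-(2 * ρ * a)) * h4
    linarith
  have hxeq : x = (1 - α - β) • c + α • vtx c ω k + β • vtx c ω (k + 1) := by
    have key0 : ρ * cos θ = α * (cos (ω + 2 * π / 9 * k) / cos (π / 9))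
        + β * (cos (ω + 2 * π / 9 * ((k + 1 : ℤ) : ℝ)) / cos (π / 9)) := by
      have e1 : θ = (ω + 2 * π / 9 * k) + u := by rw [hu]; ring
      have e2 : ω + 2 * π / 9 * ((k + 1 : ℤ) : ℝ) = (ω + 2 * π / 9 * k) + 2 * π / 9 := by
        push_cast; ring
      rw [e2, hα, hβ, hS, sin_sub, cos_add (ω + 2 * π / 9 * k) (2 * π / 9)]
      rw [show cos θ = cos ((ω + 2 * π / 9 * k) + u) by rw [← e1], cos_add]
      generalize ω + 2 * π / 9 * (k : ℝ) = W
      rw [s29_eq, c29_eq]
      have hs9' := s9_pos.ne'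
      have hc9' := c9_pos.ne'
      field_simp
      ring
    have key1 : ρ * sin θ = α * (sin (ω + 2 * π / 9 * k) / cos (π / 9))
        + β * (sin (ω + 2 * π / 9 * ((k + 1 : ℤ) : ℝ)) / cos (π / 9)) := by
      have e1 : θ = (ω + 2 * π / 9 * k) + u := by rw [hu]; ring
      have e2 : ω + 2 * π / 9 * ((k + 1 : ℤ) : ℝ) = (ω + 2 * π / 9 * k) + 2 * π / 9 := by
        push_cast; ring
      rw [e2, hα, hβ, hS, sin_sub, sin_add (ω + 2 * π / 9 * k) (2 * π / 9)]
      rw [show sin θ = sin ((ω + 2 * π / 9 * k) + u) by rw [← e1], sin_add]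
      generalize ω + 2 * π / 9 * (k : ℝ) = W
      rw [s29_eq, c29_eq]
      have hs9' := s9_pos.ne'
      have hc9' := c9_pos.ne'
      field_simp
      ring
    ext i
    fin_cases i
    · simp only [Fin.zero_eta, PiLp.add_apply, PiLp.smul_apply, smul_eq_mul]
      rw [vtx0, vtx0]
      linarith
    · simp only [Fin.mk_one, PiLp.add_apply, PiLp.smul_apply, smul_eq_mul]
      rw [vtx1, vtx1]
      linarith
  simp only [mem_iUnion, exists_prop]
  refine ⟨(k % 9).toNat, by rw [Finset.mem_range]; omega, ?_⟩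
  have hcast : (((k % 9).toNat : ℕ) : ℤ) = k % 9 := by omega
  rw [hcast]
  have e1 : vtx c ω (k % 9) = vtx c ω k := by
    conv_rhs => rw [show k = k % 9 + 9 * (k / 9) by omega]
    rw [vtx_add]
  have e2 : vtx c ω (k % 9 + 1) = vtx c ω (k + 1) := by
    conv_rhs => rw [show k + 1 = (k % 9 + 1) + 9 * (k / 9) by omega]
    rw [vtx_add]
  rw [e1, e2, hxeq]
  exact three (convex_convexHull ℝ _) (subset_convexHull _ _ (by simp))
    (subset_convexHull _ _ (by simp)) (subset_convexHull _ _ (by simp)) (by linarith) hα0 hβ0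
    (by ring)

theorem shape : ShapeStmt := by
  refine ⟨?_, fun c ω => ⟨body_convex c ω, body_compact c ω, interior_body c ω, centre_mem c ω⟩⟩
  intro c ω
  refine (measure_mono (cover c ω)).trans ((measure_biUnion_finset_le _ _).trans ?_)
  refine (Finset.sum_le_sum (s := Finset.range 9) (g := fun _ => ENNReal.ofReal (tan (π / 9)))
    fun (k : ℕ) _ => vol_sector c ω (k : ℤ)).trans ?_
  rw [Finset.sum_const, Finset.card_range, nsmul_eq_mul, ENNReal.ofReal_mul (by norm_num)]
  norm_num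

end Pool.Agent.W120.NO
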